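import Pool.Agent.Lib.H63F.G2
import Pool.Agent.Lib.H98M.M0
import Pool.Agent.Lib.H33U.Del

/-! # H63F, chunk G3: plane subsets of a complete multipartite graph are acyclic (from HD) -/

set_option autoImplicit false

namespace H63F

open Finset H98P H98Z H98M

variable {V : Type*} [Fintype V] [DecidableEq V]

/-- PROOF: `W` = the set of the vertices of the edges in `D`. `D ⊆ LW W = Un cross W ∅`. `H33U.principle` with
`F = ∅`, `S = D`: let `Z ⊆ Un cross W ∅ \ D` be plane. `Disc W Z`: take `s(v, z) ∈ D`,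
`C = {x ∈ W | s(x, v) ∉ D}` (contains `v`), the rest contains `z`; for `x ∈ C`, `y ∈ W \ C` the edge `s(x, y)` is in
`D` (otherwise `hmp y x v _`), so not in `Z`. -/
theorem acy_multi {cross : Sym2 V → Sym2 V → Prop} (hsymm : ∀ e f, cross e f → cross f e)
    (hHD : ∀ W : Finset V, HD cross W) {D : Finset (Sym2 V)} (hne : D.Nonempty)
    (hloop : ∀ v, s(v, v) ∉ D)
    (hmp : ∀ u v w z, s(u, v) ∉ D → s(v, w) ∉ D → s(v, z) ∈ D → s(u, w) ∉ D) : Acy cross D := by
  classical
  set W : Finset V := univ.filter fun v => ∃ z, s(v, z) ∈ D with hW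
  have hmW : ∀ v, v ∈ W ↔ ∃ z, s(v, z) ∈ D := fun v => by
    rw [hW, mem_filter]
    exact ⟨fun h => h.2, fun h => ⟨mem_univ v, h⟩⟩
  have hDU : D ⊆ Un cross W ∅ := by
    intro e he
    rw [mem_un]
    refine ⟨?_, fun f hf => absurd hf (notMem_empty f), notMem_empty e⟩
    induction e with
    | _ a b =>
      rw [mem_LW]
      refine ⟨(hmW a).2 ⟨b, he⟩, (hmW b).2 ⟨a, ?_⟩, ?_⟩
      · rw [Sym2.eq_swap]
        exact he
      · rintro rfl
        exact hloop _ he
  refine H66N.acy_iff.2 fun k => H33U.principle hsymm hDU fun Z hZ hZp => ?_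
  refine H66N.acyN_of_acy ?_ k
  rw [empty_union]
  refine hHD W Z ?_ hZp ?_
  · intro e he
    exact (mem_un.1 (mem_sdiff.1 (hZ he)).1).1
  · obtain ⟨e, he⟩ := hne
    induction e with
    | _ v z =>
      refine ⟨W.filter fun x => s(x, v) ∉ D, W.filter fun x => s(x, v) ∈ D, ⟨v, ?_⟩, ⟨z, ?_⟩, ?_, ?_, ?_⟩
      · exact mem_filter.2 ⟨(hmW v).2 ⟨z, he⟩, hloop v⟩
      · rw [mem_filter, Sym2.eq_swap]
        exact ⟨(hmW z).2 ⟨v, by rw [Sym2.eq_swap]; exact he⟩, he⟩
      · rw [disjoint_left]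
        intro x hx hx'
        exact (mem_filter.1 hx).2 (mem_filter.1 hx').2
      · ext x
        rw [mem_union]
        constructor
        · rintro (h | h)
          · exact (mem_filter.1 h).1
          · exact (mem_filter.1 h).1
        · intro h
          by_cases h1 : s(x, v) ∈ D
          · exact Or.inr (mem_filter.2 ⟨h, h1⟩)
          · exact Or.inl (mem_filter.2 ⟨h, h1⟩)
      · intro x hx y hy hxy
        have h1 : s(x, y) ∉ D := (mem_sdiff.1 (hZ hxy)).2
        obtain ⟨w, hw⟩ := (hmW x).1 (mem_filter.1 hx).1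
        refine hmp y x v w ?_ (mem_filter.1 hx).2 hw (mem_filter.1 hy).2
        rw [Sym2.eq_swap]
        exact h1

/-- Hypothesis (b) of the minimax theorem. -/
theorem hyp_b (hV : 2 ≤ Fintype.card V) {cross : Sym2 V → Sym2 V → Prop}
    (hsymm : ∀ e f, cross e f → cross f e) (hHD : ∀ W : Finset V, HD cross W) {T : Finset (Cut V)}
    (hT : Lam T) {μ : Cut V → ℝ} (hμ : μ ∈ Sx T) :
    AC fun G : Finset (Sym2 V) => Plane cross G ∧ Amax pc μ G := by
  classical
  set D : Finset (Sym2 V) := univ.filter fun e => ∀ f, mm pc μ f ≤ mm pc μ e with hDdef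
  have hD : ∀ e, e ∈ D ↔ ∀ f, mm pc μ f ≤ mm pc μ e := fun e => by
    rw [hDdef, mem_filter]
    exact ⟨fun h => h.2, fun h => ⟨mem_univ e, h⟩⟩
  have hpos : (0 : ℝ) < 2 / (Fintype.card V : ℝ) := by
    have h1 : (0 : ℝ) < (Fintype.card V : ℝ) := by
      have h2 : 0 < Fintype.card V := by omega
      exact_mod_cast h2
    positivity
  have hne : D.Nonempty := by
    have h1 : 0 < Fintype.card V := by omega
    obtain ⟨v⟩ := Fintype.card_pos_iff.1 h1
    have h2 : (univ : Finset (Sym2 V)).Nonempty := ⟨s(v, v), mem_univ _⟩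
    obtain ⟨e, _, he⟩ := exists_max_image (univ : Finset (Sym2 V)) (fun e => mm pc μ e) h2
    exact ⟨e, (hD e).2 fun f => he f (mem_univ f)⟩
  have hloop : ∀ v, s(v, v) ∉ D := by
    intro v hv
    have h1 := value hμ ((hD _).1 hv)
    rw [mm_loop] at h1
    linarith
  have hA : Acy cross D :=
    acy_multi hsymm hHD hne hloop fun u v w z h1 h2 h3 => multi hT hμ hD h1 h2 h3
  have hiff : ∀ G : Finset (Sym2 V), (Plane cross G ∧ Amax pc μ G) ↔ (G ⊆ D ∧ Plane cross G) := by
    intro G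
    constructor
    · rintro ⟨h1, h2⟩
      exact ⟨fun e he => (hD e).2 (h2 e he), h1⟩
    · rintro ⟨h1, h2⟩
      exact ⟨h2, fun e he => (hD e).1 (h1 he)⟩
  intro z hz hb
  obtain ⟨c, hc, hcb⟩ := hA z (fun s hs => (hiff s).1 (hz s hs)) hb
  exact ⟨c, fun s hs => (hiff s).2 (hc s hs), hcb⟩

end H63F
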