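import Pool.Agent.Lib.H63F.D

/-! # H63F, chunk F5: the trace of an augmented chain map of a full simplex -/

set_option autoImplicit false

namespace H63F

open Finset H98P

private theorem f5_iff {E : Type*} [DecidableEq E] (s r : Finset E) (a : E) :
    (a ∈ s ∧ s.erase a = r) ↔ (a ∉ r ∧ insert a r = s) := by
  constructor
  · rintro ⟨h1, rfl⟩
    exact ⟨Finset.notMem_erase a s, Finset.insert_erase h1⟩
  · rintro ⟨h1, rfl⟩
    exact ⟨Finset.mem_insert_self a r, Finset.erase_insert h1⟩

private theorem f5_B {E : Type*} [Fintype E] [DecidableEq E] (s r : Finset E) :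
    (∑ a ∈ s, if s.erase a = r then (1 : ZMod 2) else 0) = ∑ e ∈ rᶜ, if insert e r = s then 1 else 0 := by
  have h1 : (∑ a ∈ s, if s.erase a = r then (1 : ZMod 2) else 0) =
      ∑ a : E, if (a ∈ s ∧ s.erase a = r) then (1 : ZMod 2) else 0 := by
    rw [← Finset.sum_filter, ← Finset.sum_filter]
    congr 1
    ext a
    simp
  have h2 : (∑ e ∈ rᶜ, if insert e r = s then (1 : ZMod 2) else 0) =
      ∑ a : E, if (a ∉ r ∧ insert a r = s) then (1 : ZMod 2) else 0 := by
    rw [← Finset.sum_filter, ← Finset.sum_filter]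
    congr 1
    ext a
    simp
  rw [h1, h2]
  refine Finset.sum_congr rfl fun a _ => ?_
  simp only [f5_iff s r a]

/-- PROOF: matrices over `ZMod 2` indexed by `Finset E`: `F s r = f s r`, `B s r` = `1` if `r = s.erase a`, `a ∈ s`,
`H s r` = `1` if `a0 ∉ s`, `r = insert a0 s`. Then `F * B = B * F` (hypothesis; for `s = ∅` both are `0`),
`H * B + B * H = 1`, so `trace F = trace (F H B) + trace (F B H) = trace (B F H) + trace (F B H) = 0`
(`Matrix.trace_mul_comm`), and `F ∅ ∅ = 1`, so some other diagonal entry is nonzero. -/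
theorem exists_diag {E : Type*} [Fintype E] [DecidableEq E] [Nonempty E]
    (f : Finset E → Finset E → ZMod 2) (h0 : ∀ r, f ∅ r = if r = ∅ then 1 else 0)
    (hf : ∀ s, s.Nonempty → ∀ r, bd (f s) r = ∑ a ∈ s, f (s.erase a) r) :
    ∃ s, s.Nonempty ∧ f s s ≠ 0 := by
  classical
  by_contra hcon
  push Not at hcon
  obtain ⟨a0⟩ := (inferInstance : Nonempty E)
  let F : Matrix (Finset E) (Finset E) (ZMod 2) := Matrix.of f
  let B : Matrix (Finset E) (Finset E) (ZMod 2) :=
    Matrix.of fun s r => ∑ a ∈ s, if s.erase a = r then (1 : ZMod 2) else 0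
  let H : Matrix (Finset E) (Finset E) (ZMod 2) :=
    Matrix.of fun s r => if a0 ∉ s ∧ insert a0 s = r then (1 : ZMod 2) else 0
  have hBF : ∀ s r, (B * F) s r = ∑ a ∈ s, f (s.erase a) r := by
    intro s r
    show ∑ t, (∑ a ∈ s, if s.erase a = t then (1 : ZMod 2) else 0) * f t r = _
    simp only [Finset.sum_mul, ite_mul, one_mul, zero_mul]
    rw [Finset.sum_comm]
    refine Finset.sum_congr rfl fun a _ => ?_
    rw [Finset.sum_ite_eq Finset.univ (s.erase a), if_pos (Finset.mem_univ _)]
  have hFB : ∀ s r, (F * B) s r = bd (f s) r := by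
    intro s r
    show ∑ t, f s t * (∑ a ∈ t, if t.erase a = r then (1 : ZMod 2) else 0) = _
    simp only [f5_B, Finset.mul_sum, mul_ite, mul_one, mul_zero]
    rw [Finset.sum_comm]
    unfold bd
    refine Finset.sum_congr rfl fun e _ => ?_
    rw [Finset.sum_ite_eq Finset.univ (insert e r), if_pos (Finset.mem_univ _)]
  have hcomm : F * B = B * F := by
    ext s r
    rw [hFB, hBF]
    rcases s.eq_empty_or_nonempty with rfl | hs
    · rw [Finset.sum_empty]
      unfold bd
      refine Finset.sum_eq_zero fun e _ => ?_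
      rw [h0, if_neg (Finset.insert_ne_empty e r)]
    · exact hf s hs r
  have hhom : H * B + B * H = 1 := by
    ext s r
    have e1 : (H * B) s r = if a0 ∉ s then (∑ a ∈ insert a0 s, if (insert a0 s).erase a = r then (1 : ZMod 2) else 0)
        else 0 := by
      show ∑ t, (if a0 ∉ s ∧ insert a0 s = t then (1 : ZMod 2) else 0) *
        (∑ a ∈ t, if t.erase a = r then (1 : ZMod 2) else 0) = _
      by_cases h : a0 ∈ s
      · simp [h]
      · simp only [h, not_false_eq_true, true_and, ite_mul, one_mul, zero_mul, if_true]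
        rw [Finset.sum_ite_eq Finset.univ (insert a0 s), if_pos (Finset.mem_univ _)]
    have e2 : (B * H) s r = ∑ a ∈ s, if a0 ∉ s.erase a ∧ insert a0 (s.erase a) = r then (1 : ZMod 2) else 0 := by
      show ∑ t, (∑ a ∈ s, if s.erase a = t then (1 : ZMod 2) else 0) *
        (if a0 ∉ t ∧ insert a0 t = r then (1 : ZMod 2) else 0) = _
      simp only [Finset.sum_mul, ite_mul, one_mul, zero_mul]
      rw [Finset.sum_comm]
      refine Finset.sum_congr rfl fun a _ => ?_
      rw [Finset.sum_ite_eq Finset.univ (s.erase a), if_pos (Finset.mem_univ _)]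
    rw [Matrix.add_apply, e1, e2, Matrix.one_apply]
    by_cases h : a0 ∈ s
    · have h3 : (∑ a ∈ s, if a0 ∉ s.erase a ∧ insert a0 (s.erase a) = r then (1 : ZMod 2) else 0) =
          if insert a0 (s.erase a0) = r then 1 else 0 := by
        rw [Finset.sum_eq_single_of_mem a0 h]
        · simp
        · intro b hb hne
          have : a0 ∈ s.erase b := Finset.mem_erase.2 ⟨Ne.symm hne, h⟩
          simp [this]
      rw [h3, Finset.insert_erase h]
      simp [h]
    · rw [if_pos h, Finset.sum_insert h, Finset.erase_insert h]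
      have h3 : ∀ a ∈ s, (if (insert a0 s).erase a = r then (1 : ZMod 2) else 0) =
          if a0 ∉ s.erase a ∧ insert a0 (s.erase a) = r then (1 : ZMod 2) else 0 := by
        intro a ha
        have h4 : a0 ∉ s.erase a := fun h5 => h (Finset.mem_of_mem_erase h5)
        have h5 : a0 ≠ a := fun h6 => h (h6 ▸ ha)
        rw [Finset.erase_insert_of_ne h5]
        simp only [h4, not_false_eq_true, true_and]
      rw [Finset.sum_congr rfl h3, add_assoc, CharTwo.add_self_eq_zero, add_zero]
  have htr : Matrix.trace F = 0 := by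
    have h1 : F = F * H * B + F * B * H := by
      rw [Matrix.mul_assoc, Matrix.mul_assoc, ← Matrix.mul_add, hhom, Matrix.mul_one]
    rw [h1, Matrix.trace_add, Matrix.trace_mul_comm (F * H) B, ← Matrix.mul_assoc, ← hcomm]
    exact CharTwo.add_self_eq_zero _
  have htr2 : Matrix.trace F = 1 := by
    show ∑ s, f s s = 1
    rw [Finset.sum_eq_single_of_mem ∅ (Finset.mem_univ _)]
    · rw [h0, if_pos rfl]
    · intro s _ hs
      exact hcon s (Finset.nonempty_iff_ne_empty.2 hs)
  rw [htr] at htr2
  exact zero_ne_one htr2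

end H63F
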