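import Pool.Agent.Lib.H63F.F6a
import Pool.Agent.Lib.H63F.F4
import Pool.Agent.Lib.H63F.F5

/-! # H63F, chunk F6: the acyclic minimax theorem -/

set_option autoImplicit false

namespace H63F

open Finset H98P

variable {E C : Type*} [Fintype E] [DecidableEq E] [Fintype C] [DecidableEq C]

private theorem f6b_mono {A : Type*} [Fintype A] {s t : Finset A} (h : s ⊆ t) : Sx s ⊆ Sx t := by
  rintro x ⟨h1, h2, h3⟩
  exact ⟨h1, fun e he => h2 e fun he' => he (h he'), h3⟩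

private theorem f6b_ne {A : Type*} [Fintype A] [DecidableEq A] {s : Finset A} (h : s.Nonempty) :
    (Sx s).Nonempty := by
  obtain ⟨a, ha⟩ := h
  refine ⟨Pi.single a 1, ?_, ?_, ?_⟩
  · intro e
    by_cases he : e = a
    · subst he
      rw [Pi.single_eq_same]
      exact zero_le_one
    · rw [Pi.single_eq_of_ne he]
  · intro e he
    exact Pi.single_eq_of_ne (fun h => he (by rw [h]; exact ha)) _
  · rw [Finset.sum_pi_single']
    simp

/-- ACYCLIC MINIMAX. PROOF: `carriers` gives `θ` (from all sets `G`, carrier `ac_theta`) and `ψ` (from `L`, carrier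
`ac_psi`); `f G H = ∑ T, θ G T * ψ T H` satisfies `exists_diag`. -/
theorem minimax [Nonempty E] (p : E → C → ℝ) (q : C → ℝ) (K : Finset E → Prop) (L : Finset C → Prop)
    (hK : Dn K) (hL : Dn L) (hK0 : K ∅) (hL0 : L ∅)
    (ha : ∀ x ∈ Sx (univ : Finset E), AC fun T : Finset C => L T ∧ Amin p q x T)
    (hb : ∀ T, L T → ∀ μ ∈ Sx T, AC fun G : Finset E => K G ∧ Amax p μ G) :
    ∃ G : Finset E, G.Nonempty ∧ K G ∧ ∃ x ∈ Sx G, ∃ T, L T ∧ Amin p q x T ∧ ∃ μ ∈ Sx T, Amax p μ G := by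
  obtain ⟨θ, θ0, θ1, θ2⟩ := carriers (A := E) (B := C) (fun _ => True) (fun _ _ _ _ => trivial)
    (fun G T => L T ∧ ∃ x ∈ Sx G, Amin p q x T)
    (fun s t hst _ _ r hr => ⟨hr.1, hr.2.imp fun x hx => ⟨f6b_mono hst hx.1, hx.2⟩⟩)
    (fun s _ hs => ⟨hL0, (f6b_ne hs).imp fun x hx => ⟨hx, fun S hS => absurd hS (by simp)⟩⟩)
    (fun s _ hs => ac_theta p q L hL hL0 ha hs)
  obtain ⟨ψ, ψ0, ψ1, ψ2⟩ := carriers (A := C) (B := E) L hL
    (fun T G => K G ∧ ∃ μ ∈ Sx T, Amax p μ G)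
    (fun s t hst _ _ r hr => ⟨hr.1, hr.2.imp fun x hx => ⟨f6b_mono hst hx.1, hx.2⟩⟩)
    (fun s _ hs => ⟨hK0, (f6b_ne hs).imp fun x hx => ⟨hx, fun S hS => absurd hS (by simp)⟩⟩)
    (fun s hLs hs => ac_psi p K hK hK0 hs (hb s hLs))
  have hne : ∀ s : Finset E, s.Nonempty → ∀ T : Finset C, θ s T ≠ 0 → L T ∧ T.Nonempty := by
    intro s hs T hT
    obtain ⟨h1, h2⟩ := θ1 s trivial hs T hT
    exact ⟨h1.1, Finset.card_pos.mp (by rw [h2]; exact Finset.card_pos.mpr hs)⟩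
  obtain ⟨s, hs, hss⟩ := exists_diag (E := E) (fun G H => ∑ T, θ G T * ψ T H) (by
      intro r
      rw [Finset.sum_eq_single ∅]
      · rw [θ0, if_pos rfl, one_mul, ψ0]
      · intro T _ hT
        rw [θ0, if_neg hT, zero_mul]
      · intro h
        exact absurd (mem_univ _) h) (by
      intro s hs r
      have e1 : bd (fun H => ∑ T, θ s T * ψ T H) r = ∑ T, θ s T * bd (ψ T) r := by
        rw [bd_sum]
        refine Finset.sum_congr rfl fun T _ => ?_
        simp only [bd, Finset.mul_sum]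
      have e2 : ∑ T, θ s T * bd (ψ T) r = ∑ T, θ s T * ∑ a ∈ T, ψ (T.erase a) r := by
        refine Finset.sum_congr rfl fun T _ => ?_
        by_cases hT : θ s T = 0
        · rw [hT, zero_mul, zero_mul]
        · obtain ⟨h1, h2⟩ := hne s hs T hT
          rw [ψ2 T h1 h2 r]
      have e3 := pairing (fun T => ψ T r) (θ s)
      rw [e1, e2, ← e3]
      have e4 : ∀ T : Finset C, ψ T r * bd (θ s) T = ∑ a ∈ s, θ (s.erase a) T * ψ T r := by
        intro T
        rw [θ2 s trivial hs T, Finset.mul_sum]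
        exact Finset.sum_congr rfl fun a _ => mul_comm _ _
      rw [Finset.sum_congr rfl fun T _ => e4 T, Finset.sum_comm])
  obtain ⟨T, _, hT⟩ := Finset.exists_ne_zero_of_sum_ne_zero hss
  have hT1 : θ s T ≠ 0 := left_ne_zero_of_mul hT
  have hT2 : ψ T s ≠ 0 := right_ne_zero_of_mul hT
  obtain ⟨hLT, hTn⟩ := hne s hs T hT1
  obtain ⟨⟨_, x, hx, hx'⟩, _⟩ := θ1 s trivial hs T hT1
  obtain ⟨⟨hKs, μ, hμ, hμ'⟩, _⟩ := ψ1 T hLT hTn s hT2
  exact ⟨s, hs, hKs, x, hx, T, hLT, hx', μ, hμ, hμ'⟩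

end H63F
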