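import Pool.Agent.Lib.H63F.D
import Pool.Agent.Lib.H98P.AC

/-! # H63F, chunk F1: union of acyclic complexes, full simplex -/

set_option autoImplicit false

namespace H63F

open Finset H98P

variable {E : Type*} [Fintype E] [DecidableEq E]

theorem ac_congr {K K' : Finset E → Prop} (h : ∀ s, K s ↔ K' s) (hK : AC K) : AC K' := by
  have : K = K' := funext fun s => propext (h s)
  rwa [← this]

/-- MAYER-VIETORIS. PROOF: `z = z1 + z2`, `z1` = the part on `K1`, `z2` = the rest (on `K2`). `w = bd z1 = bd z2` is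
supported on `K1 ∧ K2` (closed under subsets), `bd w = 0`, so `w = bd u`; `z1 + u = bd c1`, `z2 + u = bd c2`,
`z = bd (c1 + c2)`. Use `H98P.bd_add`, `H98P.bd_bd`, `H98Z.bd_ne` (in H98Z/S1.lean). -/
theorem ac_union {K1 K2 : Finset E → Prop} (h1 : Dn K1) (h2 : Dn K2) (a1 : AC K1) (a2 : AC K2)
    (a12 : AC fun s => K1 s ∧ K2 s) : AC fun s => K1 s ∨ K2 s := by
  classical
  intro z hz hbd
  obtain ⟨z1, hz1⟩ : ∃ z1 : Finset E → ZMod 2, ∀ s, z1 s = if K1 s then z s else 0 := ⟨_, fun _ => rfl⟩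
  obtain ⟨z2, hz2⟩ : ∃ z2 : Finset E → ZMod 2, ∀ s, z2 s = if K1 s then 0 else z s := ⟨_, fun _ => rfl⟩
  have hsum : ∀ s, z1 s + z2 s = z s := by
    intro s
    rw [hz1, hz2]
    split_ifs <;> simp
  have hs1 : ∀ s, z1 s ≠ 0 → K1 s := by
    intro s hs
    rw [hz1] at hs
    by_contra hc
    rw [if_neg hc] at hs
    exact hs rfl
  have hs2 : ∀ s, z2 s ≠ 0 → K2 s := by
    intro s hs
    rw [hz2] at hs
    by_cases hc : K1 s
    · rw [if_pos hc] at hs
      exact absurd rfl hs
    · rw [if_neg hc] at hs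
      rcases hz s hs with h | h
      · exact absurd h hc
      · exact h
  have hb : ∀ r, bd z1 r + bd z2 r = 0 := by
    intro r
    rw [← bd_add]
    have : (fun σ => z1 σ + z2 σ) = z := funext hsum
    rw [this]
    exact hbd r
  have hb' : ∀ r, bd z1 r = bd z2 r := by
    intro r
    have h := hb r
    exact CharTwo.add_eq_zero.1 h
  have hw : ∀ (c : Finset E → ZMod 2) (K : Finset E → Prop), Dn K → (∀ s, c s ≠ 0 → K s) →
      ∀ r, bd c r ≠ 0 → K r := by
    intro c K hK hc r hr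
    by_contra hcon
    apply hr
    unfold bd
    refine sum_eq_zero fun e _ => ?_
    by_contra h0
    exact hcon (hK r (insert e r) (subset_insert _ _) (hc _ h0))
  obtain ⟨u, hu1, hu2⟩ := a12 (bd z1)
    (fun s hs => ⟨hw z1 K1 h1 hs1 s hs, hw z2 K2 h2 hs2 s (by rw [← hb' s]; exact hs)⟩)
    (fun r => bd_bd z1 r)
  obtain ⟨c1, hc1, hd1⟩ := a1 (fun s => z1 s + u s)
    (by
      intro s hs
      by_cases h : z1 s = 0
      · exact (hu1 s (by simpa [h] using hs)).1
      · exact hs1 s h)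
    (by
      intro r
      rw [bd_add, hu2 r]
      exact CharTwo.add_self_eq_zero _)
  obtain ⟨c2, hc2, hd2⟩ := a2 (fun s => z2 s + u s)
    (by
      intro s hs
      by_cases h : z2 s = 0
      · exact (hu1 s (by simpa [h] using hs)).2
      · exact hs2 s h)
    (by
      intro r
      rw [bd_add, hu2 r, hb' r]
      exact CharTwo.add_self_eq_zero _)
  refine ⟨fun s => c1 s + c2 s, ?_, ?_⟩
  · intro s hs
    by_cases h : c1 s = 0
    · exact Or.inr (hc2 s (by simpa [h] using hs))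
    · exact Or.inl (hc1 s h)
  · intro r
    rw [bd_add, hd1 r, hd2 r, ← hsum r]
    have h2 := CharTwo.add_self_eq_zero (u r)
    linear_combination h2

/-- The full simplex on a nonempty set (cone with apex `a ∈ A`). -/
theorem ac_simplex {A : Finset E} (hA : A.Nonempty) : AC fun s => s ⊆ A := by
  intro z hz hbd
  obtain ⟨a, ha⟩ := hA
  have hpl : ∀ F : Finset E, Plane (fun _ _ : E => False) F := fun F e _ f _ h => h
  obtain ⟨d, hd1, hd2⟩ := H98P.acyclic (cross := fun _ _ : E => False) (fun _ _ h => h)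
    (L := A) (S := A) Subset.rfl (hpl A) (fun F _ _ => ⟨a, ha, fun f _ h => h⟩)
    (c := z) (fun σ hσ => ⟨hz σ hσ, hpl σ⟩) hbd
  exact ⟨d, fun s hs => (hd1 s hs).1, hd2⟩

end H63F
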