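import Pool.Agent.Lib.H63F.F1
import Pool.Agent.Lib.H13G.A

/-! # H63F, chunk G5a: strict uncrossing, minimizers do not cross (general constants) -/

set_option autoImplicit false
set_option linter.unusedSectionVars false

namespace H63F

open Finset H98P

variable {V : Type*} [Fintype V] [DecidableEq V]

/-- Strict uncrossing for the constants `c`. -/
def SUnc (c : Finset V → ℝ) : Prop :=
  ∀ S T : Finset V, ¬ NonX S T →
    c (S ∩ T) + c (S ∪ T) < c S + c T ∨ c (S \ T) + c (T \ S) < c S + c T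

private theorem g5a_pay (c : Finset V → ℝ) (x : Sym2 V → ℝ) (S : Cut V) :
    pay pc (fun S : Cut V => c S.1) x S = cutw x S.1 + c S.1 := rfl

/-- G5a. Minimizers of `x(δ S) + c(S)` do not cross. -/
theorem min_nonx_c {c : Finset V → ℝ} (hc : SUnc c) {x : Sym2 V → ℝ} (hx : ∀ e, 0 ≤ x e) {S T : Cut V}
    (hS : ∀ S', pay pc (fun S => c S.1) x S ≤ pay pc (fun S => c S.1) x S')
    (hT : ∀ S', pay pc (fun S => c S.1) x T ≤ pay pc (fun S => c S.1) x S') : NonX S.1 T.1 := by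
  by_contra hn
  have hn' := hn
  unfold NonX at hn'
  push Not at hn'
  obtain ⟨n1, n2, n3, n4⟩ := hn'
  have m1 : (S.1 ∩ T.1).Nonempty := Finset.nonempty_iff_ne_empty.2 (Finset.nonempty_iff_ne_empty.1 n1)
  have m2 : (S.1 \ T.1).Nonempty := Finset.sdiff_nonempty.2 n2
  have m3 : (T.1 \ S.1).Nonempty := Finset.sdiff_nonempty.2 n3
  rcases hc S.1 T.1 hn with h | h
  · have i1 : S.1 ∩ T.1 ≠ univ := by
      intro h1
      obtain ⟨a, ha⟩ := m2
      have h2 : a ∈ S.1 ∩ T.1 := by rw [h1]; exact mem_univ a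
      exact (Finset.mem_sdiff.1 ha).2 (Finset.mem_inter.1 h2).2
    have a1 := hS ⟨S.1 ∩ T.1, m1, i1⟩
    have a2 := hT ⟨S.1 ∪ T.1, m1.mono (Finset.inter_subset_union), n4⟩
    rw [g5a_pay, g5a_pay] at a1 a2
    have a3 := H13G.cutw_submod hx S.1 T.1
    simp only at a1 a2
    linarith
  · have i1 : S.1 \ T.1 ≠ univ := by
      intro h1
      obtain ⟨a, ha⟩ := m1
      have h2 : a ∈ S.1 \ T.1 := by rw [h1]; exact mem_univ a
      exact (Finset.mem_sdiff.1 h2).2 (Finset.mem_inter.1 ha).2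
    have i2 : T.1 \ S.1 ≠ univ := by
      intro h1
      obtain ⟨a, ha⟩ := m1
      have h2 : a ∈ T.1 \ S.1 := by rw [h1]; exact mem_univ a
      exact (Finset.mem_sdiff.1 h2).2 (Finset.mem_inter.1 ha).1
    have a1 := hS ⟨S.1 \ T.1, m2, i1⟩
    have a2 := hT ⟨T.1 \ S.1, m3, i2⟩
    rw [g5a_pay, g5a_pay] at a1 a2
    have a3 := H13G.cutw_posimod hx S.1 T.1
    simp only at a1 a2
    linarith

/-- G5a. -/
theorem hyp_a_c (hV : 2 ≤ Fintype.card V) {c : Finset V → ℝ} (hc : SUnc c) {x : Sym2 V → ℝ}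
    (hx : ∀ e, 0 ≤ x e) : AC fun T : Finset (Cut V) => Lam T ∧ Amin pc (fun S => c S.1) x T := by
  classical
  obtain ⟨a, b, hab⟩ : ∃ a b : V, a ≠ b := Fintype.exists_pair_of_one_lt_card (by omega)
  have : Nonempty (Cut V) := ⟨⟨{a}, singleton_nonempty a, fun h => hab.symm (by
    have := (h ▸ mem_univ b : b ∈ ({a} : Finset V))
    exact Finset.mem_singleton.1 this)⟩⟩
  obtain ⟨S₀, -, hS₀⟩ := Finset.exists_min_image (univ : Finset (Cut V))
    (pay pc (fun S : Cut V => c S.1) x) univ_nonempty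
  set A : Finset (Cut V) := univ.filter fun S => ∀ S', pay pc (fun S : Cut V => c S.1) x S ≤
    pay pc (fun S : Cut V => c S.1) x S' with hA
  have hne : A.Nonempty := ⟨S₀, by rw [hA, mem_filter]; exact ⟨mem_univ _, fun S' => hS₀ S' (mem_univ _)⟩⟩
  refine ac_congr (K := fun T => T ⊆ A) (fun T => ?_) (ac_simplex hne)
  constructor
  · intro h
    refine ⟨fun S hS S' hS' => ?_, fun S hS => ?_⟩
    · have h1 := (mem_filter.1 (h hS)).2
      have h2 := (mem_filter.1 (h hS')).2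
      exact min_nonx_c hc hx h1 h2
    · exact (mem_filter.1 (h hS)).2
  · rintro ⟨-, h⟩ S hS
    rw [hA, mem_filter]
    exact ⟨mem_univ _, h S hS⟩

end H63F
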