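import Pool.Agent.Lib.H63F.F6
import Pool.Agent.Lib.H63F.G3
import Pool.Agent.Lib.H63F.G5a

/-! # H63F, chunk G5b: the value for plane weights is at least the value of any weights -/

set_option autoImplicit false

namespace H63F

open Finset H98P H98Z H98M

variable {V : Type*} [Fintype V] [DecidableEq V]

private theorem g5b_swap (w : Sym2 V → ℝ) (μ : Cut V → ℝ) :
    ∑ S : Cut V, μ S * cutw w S.1 = ∑ e, w e * mm pc μ e := by
  unfold cutw mm pc
  simp only [Finset.mul_sum]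
  rw [Finset.sum_comm]
  refine Finset.sum_congr rfl fun e _ => Finset.sum_congr rfl fun S _ => ?_
  ring

/-- `approx_c` with the hypothesis (a) as an assumption. -/
theorem approx_of (hV : 2 ≤ Fintype.card V) {cross : Sym2 V → Sym2 V → Prop}
    (hsymm : ∀ e f, cross e f → cross f e) (hHD : ∀ W : Finset V, HD cross W) {c : Finset V → ℝ}
    (hA : ∀ x : Sym2 V → ℝ, (∀ e, 0 ≤ x e) →
      AC fun T : Finset (Cut V) => Lam T ∧ Amin pc (fun S => c S.1) x T)
    {x0 : Sym2 V → ℝ} (h0 : ∀ e, 0 ≤ x0 e) (h1 : ∑ e, x0 e = 1) :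
    ∃ G : Finset (Sym2 V), Plane cross G ∧ (∀ v, s(v, v) ∉ G) ∧ ∃ x ∈ Sx G,
      ∀ S' : Finset V, S'.Nonempty → S' ≠ univ → ∃ S : Finset V, S.Nonempty ∧ S ≠ univ ∧
        cutw x0 S + c S ≤ cutw x S' + c S' := by
  classical
  have hne : Nonempty V := Fintype.card_pos_iff.1 (by omega)
  have hneE : Nonempty (Sym2 V) := hne.map fun v => s(v, v)
  obtain ⟨G, hGn, hGK, x, hx, T, hT, hAm, μ, hμ, hAx⟩ :=
    minimax (E := Sym2 V) (C := Cut V) pc (fun S => c S.1) (fun G => Plane cross G) Lam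
      (fun s t hst ht e he f hf => ht e (hst he) f (hst hf))
      (fun s t hst ht S hS S' hS' => ht S (hst hS) S' (hst hS'))
      (fun e he => absurd he (Finset.notMem_empty e))
      (fun S hS => absurd hS (Finset.notMem_empty S))
      (fun x hx => hA x hx.1)
      (fun T hT μ hμ => hyp_b hV hsymm hHD hT hμ)
  have hcard : (0 : ℝ) < Fintype.card V := by
    have : 0 < Fintype.card V := by omega
    exact_mod_cast this
  refine ⟨G, hGK, ?_, x, hx, ?_⟩
  · intro v hv
    have h2 := value hμ (e := s(v, v)) (fun f => hAx _ hv f)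
    rw [mm_loop] at h2
    have h3 : 0 < 2 / (Fintype.card V : ℝ) := by positivity
    exact absurd h2 (not_le.2 h3)
  · intro S' hS'1 hS'2
    by_contra hcon
    have hcon' : ∀ S : Cut V, cutw x S' + c S' < cutw x0 S.1 + c S.1 := by
      intro S
      by_contra h
      exact hcon ⟨S.1, S.2.1, S.2.2, not_lt.1 h⟩
    obtain ⟨e0, he0⟩ := hGn
    have hM : ∀ e ∈ G, mm pc μ e = mm pc μ e0 := fun e he => le_antisymm (hAx e0 he0 e) (hAx e he e0)
    have hpay : ∀ S : Cut V, pay pc (fun S : Cut V => c S.1) x S = cutw x S.1 + c S.1 := fun S => rfl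
    have hx1 : ∑ e, x e * mm pc μ e = mm pc μ e0 := by
      have h2 : ∀ e : Sym2 V, x e * mm pc μ e = x e * mm pc μ e0 := by
        intro e
        by_cases he : e ∈ G
        · rw [hM e he]
        · rw [hx.2.1 e he, zero_mul, zero_mul]
      rw [Finset.sum_congr rfl fun e _ => h2 e, ← Finset.sum_mul, hx.2.2, one_mul]
    have hx2 : ∑ e, x0 e * mm pc μ e ≤ mm pc μ e0 := by
      have h2 : ∀ e ∈ (univ : Finset (Sym2 V)), x0 e * mm pc μ e ≤ x0 e * mm pc μ e0 :=
        fun e _ => mul_le_mul_of_nonneg_left (hAx e0 he0 e) (h0 e)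
      have h3 := Finset.sum_le_sum h2
      rw [← Finset.sum_mul, h1, one_mul] at h3
      exact h3
    have hS1 : ∑ S : Cut V, μ S * (cutw x S.1 + c S.1) ≤ cutw x S' + c S' := by
      have h2 : ∀ S ∈ (univ : Finset (Cut V)), μ S * (cutw x S.1 + c S.1) ≤ μ S * (cutw x S' + c S') := by
        intro S _
        by_cases hS : S ∈ T
        · have h3 := hAm S hS ⟨S', hS'1, hS'2⟩
          rw [hpay, hpay] at h3
          exact mul_le_mul_of_nonneg_left h3 (hμ.1 S)
        · rw [hμ.2.1 S hS, zero_mul, zero_mul]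
      have h3 := Finset.sum_le_sum h2
      rw [← Finset.sum_mul, hμ.2.2, one_mul] at h3
      exact h3
    have hS2 : cutw x S' + c S' < ∑ S : Cut V, μ S * (cutw x0 S.1 + c S.1) := by
      have h2 : ∑ S : Cut V, μ S * (cutw x S' + c S') = cutw x S' + c S' := by
        rw [← Finset.sum_mul, hμ.2.2, one_mul]
      rw [← h2]
      refine Finset.sum_lt_sum (fun S _ => mul_le_mul_of_nonneg_left (hcon' S).le (hμ.1 S)) ?_
      have h3 : ∃ S ∈ (univ : Finset (Cut V)), μ S ≠ 0 := by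
        apply Finset.exists_ne_zero_of_sum_ne_zero
        rw [hμ.2.2]
        exact one_ne_zero
      obtain ⟨S, hSu, hS0⟩ := h3
      exact ⟨S, hSu, mul_lt_mul_of_pos_left (hcon' S) (lt_of_le_of_ne (hμ.1 S) (Ne.symm hS0))⟩
    have hS3 : ∑ S : Cut V, μ S * (cutw x S.1 + c S.1)
        = ∑ e, x e * mm pc μ e + ∑ S : Cut V, μ S * c S.1 := by
      rw [← g5b_swap, ← Finset.sum_add_distrib]
      exact Finset.sum_congr rfl fun S _ => mul_add _ _ _
    have hS4 : ∑ S : Cut V, μ S * (cutw x0 S.1 + c S.1)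
        = ∑ e, x0 e * mm pc μ e + ∑ S : Cut V, μ S * c S.1 := by
      rw [← g5b_swap, ← Finset.sum_add_distrib]
      exact Finset.sum_congr rfl fun S _ => mul_add _ _ _
    rw [hS3, hx1] at hS1
    rw [hS4] at hS2
    linarith

/-- G5b. The value for plane weights is at least the value of any `x0`. PROOF: `minimax` with `q = c`. For
`G, x, T, μ`: `pay x S' ≥ ∑ μ S * pay x S = max mm + ∑ μ S * c S ≥ ∑ x0 e * mm e + ∑ μ S * c S
= ∑ μ S * (cutw x0 S + c S) ≥ min`. -/
theorem approx_c (hV : 2 ≤ Fintype.card V) {cross : Sym2 V → Sym2 V → Prop}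
    (hsymm : ∀ e f, cross e f → cross f e) (hHD : ∀ W : Finset V, HD cross W) {c : Finset V → ℝ}
    (hc : SUnc c) {x0 : Sym2 V → ℝ} (h0 : ∀ e, 0 ≤ x0 e) (h1 : ∑ e, x0 e = 1) :
    ∃ G : Finset (Sym2 V), Plane cross G ∧ (∀ v, s(v, v) ∉ G) ∧ ∃ x ∈ Sx G,
      ∀ S' : Finset V, S'.Nonempty → S' ≠ univ → ∃ S : Finset V, S.Nonempty ∧ S ≠ univ ∧
        cutw x0 S + c S ≤ cutw x S' + c S' :=
  approx_of hV hsymm hHD (fun _ hx => hyp_a_c hV hc hx) h0 h1

end H63F
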