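import Pool.Agent.Lib.H63F.D

/-! # H63F, chunk G5c: the demands (skew supermodular local connectivities) -/

set_option autoImplicit false

namespace H63F

open Finset H98P

variable {V : Type*} [Fintype V] [DecidableEq V]

private theorem g5c_px_compl (e : Sym2 V) (S : Finset V) : px e (univ \ S) = px e S := by
  unfold px
  have h : (∃ a ∈ univ \ S, ∃ b, b ∉ univ \ S ∧ e = s(a, b)) ↔
      ∃ a ∈ S, ∃ b, b ∉ S ∧ e = s(a, b) := by
    constructor
    · rintro ⟨a, ha, b, hb, rfl⟩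
      refine ⟨b, ?_, a, ?_, Sym2.eq_swap⟩
      · by_contra h
        exact hb (by simp [h])
      · simpa using ha
    · rintro ⟨a, ha, b, hb, rfl⟩
      exact ⟨b, by simpa using hb, a, by simpa using ha, Sym2.eq_swap⟩
  by_cases h1 : ∃ a ∈ S, ∃ b, b ∉ S ∧ e = s(a, b)
  · rw [if_pos h1, if_pos (h.2 h1)]
  · rw [if_neg h1, if_neg fun h2 => h1 (h.1 h2)]

private theorem g5c_cutw_compl (y : Sym2 V → ℝ) (S : Finset V) :
    cutw y (univ \ S) = cutw y S := by
  unfold cutw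
  exact Finset.sum_congr rfl fun e _ => by rw [g5c_px_compl]

/-- G5c. The demands: `r S` = the largest minimum cut of `x0` between a point of `S` and a point outside. -/
theorem exists_demand {x0 : Sym2 V → ℝ} (h0 : ∀ e, 0 ≤ x0 e) : ∃ r : Finset V → ℝ,
    (∀ S : Finset V, S.Nonempty → S ≠ univ → r S ≤ cutw x0 S) ∧
    (∀ (S : Finset V) (u v : V), u ∈ S → v ∉ S → ∃ T : Finset V, u ∈ T ∧ v ∉ T ∧ cutw x0 T ≤ r S) ∧
    (∀ v, (∃ u, u ≠ v) → r {v} = cutw x0 {v}) ∧
    ∀ S T : Finset V, ¬ NonX S T → r S + r T ≤ r (S ∩ T) + r (S ∪ T) ∨ r S + r T ≤ r (S \ T) + r (T \ S) := by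
  have _ := h0
  -- minimum cuts
  have hTm : ∀ u v : V, ∃ T : Finset V, u ≠ v → u ∈ T ∧ v ∉ T ∧
      ∀ T' : Finset V, u ∈ T' → v ∉ T' → cutw x0 T ≤ cutw x0 T' := by
    intro u v
    by_cases h : u ≠ v
    · obtain ⟨T, hT, hmin⟩ := Finset.exists_min_image
        ((univ : Finset (Finset V)).filter fun T => u ∈ T ∧ v ∉ T) (cutw x0)
        ⟨{u}, by
          rw [Finset.mem_filter]
          exact ⟨mem_univ _, mem_singleton_self u, fun h' => h (mem_singleton.1 h').symm⟩⟩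
      rw [Finset.mem_filter] at hT
      exact ⟨T, fun _ => ⟨hT.2.1, hT.2.2, fun T' h1 h2 =>
        hmin T' (Finset.mem_filter.2 ⟨mem_univ _, h1, h2⟩)⟩⟩
    · exact ⟨∅, fun h' => absurd h' h⟩
  choose Tm hTm using hTm
  have hsym : ∀ u v : V, u ≠ v → cutw x0 (Tm u v) = cutw x0 (Tm v u) := by
    have hle : ∀ u v : V, u ≠ v → cutw x0 (Tm u v) ≤ cutw x0 (Tm v u) := by
      intro u v h
      obtain ⟨h1, h2, h3⟩ := hTm u v h
      obtain ⟨h4, h5, h6⟩ := hTm v u h.symm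
      have h7 := h3 (univ \ Tm v u) (by simpa using h5) (by simpa using h4)
      rwa [g5c_cutw_compl] at h7
    exact fun u v h => le_antisymm (hle u v h) (hle v u h.symm)
  -- the largest of them
  have hR : ∀ S : Finset V, ∃ R : ℝ, S.Nonempty → S ≠ univ →
      (∃ a ∈ S, ∃ b, b ∉ S ∧ R = cutw x0 (Tm a b)) ∧
      ∀ u ∈ S, ∀ v, v ∉ S → cutw x0 (Tm u v) ≤ R := by
    intro S
    by_cases h : S.Nonempty ∧ S ≠ univ
    · obtain ⟨⟨a, ha⟩, h2⟩ := h
      obtain ⟨b, hb⟩ : ∃ b, b ∉ S := by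
        by_contra hcon
        push Not at hcon
        exact h2 (Finset.eq_univ_iff_forall.2 hcon)
      obtain ⟨p, hp, hmax⟩ := Finset.exists_max_image
        (S ×ˢ (univ \ S)) (fun p : V × V => cutw x0 (Tm p.1 p.2))
        ⟨(a, b), by
          rw [Finset.mem_product]
          exact ⟨ha, by simpa using hb⟩⟩
      rw [Finset.mem_product] at hp
      refine ⟨cutw x0 (Tm p.1 p.2), fun _ _ => ⟨⟨p.1, hp.1, p.2, by simpa using hp.2, rfl⟩,
        fun u hu v hv => ?_⟩⟩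
      exact hmax (u, v) (Finset.mem_product.2 ⟨hu, by simpa using hv⟩)
    · exact ⟨0, fun h1 h2 => absurd ⟨h1, h2⟩ h⟩
  choose R hR using hR
  -- both orders
  have hR2 : ∀ S : Finset V, S.Nonempty → S ≠ univ → ∀ u ∈ S, ∀ v, v ∉ S →
      cutw x0 (Tm u v) ≤ R S ∧ cutw x0 (Tm v u) ≤ R S := by
    intro S h1 h2 u hu v hv
    have h3 := (hR S h1 h2).2 u hu v hv
    have hne : u ≠ v := fun h => hv (h ▸ hu)
    exact ⟨h3, by rwa [← hsym u v hne]⟩
  have hRle : ∀ S : Finset V, S.Nonempty → S ≠ univ → R S ≤ cutw x0 S := by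
    intro S h1 h2
    obtain ⟨a, ha, b, hb, h3⟩ := (hR S h1 h2).1
    rw [h3]
    exact (hTm a b fun h => hb (h ▸ ha)).2.2 S ha hb
  refine ⟨fun S => if S.card = 1 then cutw x0 S else R S, ?_, ?_, ?_, ?_⟩
  · intro S h1 h2
    by_cases h : S.card = 1
    · simp only [h, if_true]
      exact le_rfl
    · simp only [h, if_false]
      exact hRle S h1 h2
  · intro S u v hu hv
    by_cases h : S.card = 1
    · exact ⟨S, hu, hv, by simp only [h, if_true]; exact le_rfl⟩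
    · have hne : u ≠ v := fun h => hv (h ▸ hu)
      obtain ⟨h1, h2, _⟩ := hTm u v hne
      refine ⟨Tm u v, h1, h2, ?_⟩
      simp only [h, if_false]
      exact (hR2 S ⟨u, hu⟩ (fun h => hv (h ▸ mem_univ v)) u hu v hv).1
  · intro v _
    simp
  · intro S T hX
    unfold NonX at hX
    push Not at hX
    obtain ⟨hX1, hX2, hX3, hX4⟩ := hX
    obtain ⟨p, hp⟩ := hX1
    rw [Finset.mem_inter] at hp
    obtain ⟨q, hqS, hqT⟩ := Finset.not_subset.1 hX2
    obtain ⟨s, hsT, hsS⟩ := Finset.not_subset.1 hX3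
    obtain ⟨t, ht⟩ : ∃ t, t ∉ S ∪ T := by
      by_contra hcon
      push Not at hcon
      exact hX4 (Finset.eq_univ_iff_forall.2 hcon)
    rw [Finset.mem_union, not_or] at ht
    have hSc : S.card ≠ 1 := by
      intro h
      obtain ⟨w, rfl⟩ := Finset.card_eq_one.1 h
      rw [mem_singleton] at hqS hp
      exact hqT (by rw [hqS, ← hp.1]; exact hp.2)
    have hTc : T.card ≠ 1 := by
      intro h
      obtain ⟨w, rfl⟩ := Finset.card_eq_one.1 h
      rw [mem_singleton] at hsT hp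
      exact hsS (by rw [hsT, ← hp.2]; exact hp.1)
    have hge : ∀ X : Finset V, X.Nonempty → X ≠ univ →
        R X ≤ (fun S : Finset V => if S.card = 1 then cutw x0 S else R S) X := by
      intro X h1 h2
      by_cases h : X.card = 1
      · simp only [h, if_true]
        exact hRle X h1 h2
      · simp only [h, if_false]
        exact le_rfl
    have nA : (S ∩ T).Nonempty := ⟨p, Finset.mem_inter.2 hp⟩
    have uA : S ∩ T ≠ univ := fun h => hqT (Finset.mem_inter.1 (h ▸ mem_univ q)).2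
    have nD : (S ∪ T).Nonempty := ⟨p, Finset.mem_union_left _ hp.1⟩
    have nB : (S \ T).Nonempty := ⟨q, Finset.mem_sdiff.2 ⟨hqS, hqT⟩⟩
    have uB : S \ T ≠ univ := fun h => (Finset.mem_sdiff.1 (h ▸ mem_univ s)).2 hsT
    have nC : (T \ S).Nonempty := ⟨s, Finset.mem_sdiff.2 ⟨hsT, hsS⟩⟩
    have uC : T \ S ≠ univ := fun h => (Finset.mem_sdiff.1 (h ▸ mem_univ q)).2 hqS
    have nS : S.Nonempty := ⟨p, hp.1⟩
    have uS : S ≠ univ := fun h => hsS (h ▸ mem_univ s)
    have nT : T.Nonempty := ⟨p, hp.2⟩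
    have uT : T ≠ univ := fun h => hqT (h ▸ mem_univ q)
    have gA := hge _ nA uA
    have gD := hge _ nD hX4
    have gB := hge _ nB uB
    have gC := hge _ nC uC
    obtain ⟨a, ha, b, hb, hRS⟩ := (hR S nS uS).1
    obtain ⟨c, hc, d, hd, hRT⟩ := (hR T nT uT).1
    have main : R S + R T ≤ R (S ∩ T) + R (S ∪ T) ∨ R S + R T ≤ R (S \ T) + R (T \ S) := by
      rw [hRS, hRT]
      have kA := hR2 (S ∩ T) nA uA
      have kD := hR2 (S ∪ T) nD hX4
      have kB := hR2 (S \ T) nB uB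
      have kC := hR2 (T \ S) nC uC
      by_contra hcon
      rw [not_or, not_le, not_le] at hcon
      obtain ⟨hc1, hc2⟩ := hcon
      -- the pair of `S`
      have hSp : (cutw x0 (Tm a b) ≤ R (S ∩ T) ∧ cutw x0 (Tm a b) ≤ R (S ∪ T)) ∨
          (cutw x0 (Tm a b) ≤ R (S ∩ T) ∧ cutw x0 (Tm a b) ≤ R (T \ S)) ∨
          (cutw x0 (Tm a b) ≤ R (S \ T) ∧ cutw x0 (Tm a b) ≤ R (T \ S)) ∨
          (cutw x0 (Tm a b) ≤ R (S \ T) ∧ cutw x0 (Tm a b) ≤ R (S ∪ T)) := by
        by_cases haT : a ∈ T <;> by_cases hbT : b ∈ T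
        · exact Or.inr (Or.inl ⟨(kA a (by simp [ha, haT]) b (by simp [hb])).1,
            (kC b (by simp [hb, hbT]) a (by simp [ha])).2⟩)
        · exact Or.inl ⟨(kA a (by simp [ha, haT]) b (by simp [hb])).1,
            (kD a (by simp [ha]) b (by simp [hb, hbT])).1⟩
        · exact Or.inr (Or.inr (Or.inl ⟨(kB a (by simp [ha, haT]) b (by simp [hb])).1,
            (kC b (by simp [hb, hbT]) a (by simp [ha])).2⟩))
        · exact Or.inr (Or.inr (Or.inr ⟨(kB a (by simp [ha, haT]) b (by simp [hb])).1,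
            (kD a (by simp [ha]) b (by simp [hb, hbT])).1⟩))
      -- the pair of `T`
      have hTp : (cutw x0 (Tm c d) ≤ R (S ∩ T) ∧ cutw x0 (Tm c d) ≤ R (S ∪ T)) ∨
          (cutw x0 (Tm c d) ≤ R (S ∩ T) ∧ cutw x0 (Tm c d) ≤ R (S \ T)) ∨
          (cutw x0 (Tm c d) ≤ R (T \ S) ∧ cutw x0 (Tm c d) ≤ R (S \ T)) ∨
          (cutw x0 (Tm c d) ≤ R (T \ S) ∧ cutw x0 (Tm c d) ≤ R (S ∪ T)) := by
        by_cases hcS : c ∈ S <;> by_cases hdS : d ∈ S
        · exact Or.inr (Or.inl ⟨(kA c (by simp [hc, hcS]) d (by simp [hd])).1,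
            (kB d (by simp [hd, hdS]) c (by simp [hc])).2⟩)
        · exact Or.inl ⟨(kA c (by simp [hc, hcS]) d (by simp [hd])).1,
            (kD c (by simp [hc]) d (by simp [hd, hdS])).1⟩
        · exact Or.inr (Or.inr (Or.inl ⟨(kC c (by simp [hc, hcS]) d (by simp [hd])).1,
            (kB d (by simp [hd, hdS]) c (by simp [hc])).2⟩))
        · exact Or.inr (Or.inr (Or.inr ⟨(kC c (by simp [hc, hcS]) d (by simp [hd])).1,
            (kD c (by simp [hc]) d (by simp [hd, hdS])).1⟩))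
      rcases hSp with ⟨h1, h2⟩ | ⟨h1, h2⟩ | ⟨h1, h2⟩ | ⟨h1, h2⟩ <;>
        rcases hTp with ⟨h3, h4⟩ | ⟨h3, h4⟩ | ⟨h3, h4⟩ | ⟨h3, h4⟩ <;> linarith
    have eS : (fun S : Finset V => if S.card = 1 then cutw x0 S else R S) S = R S := if_neg hSc
    have eT : (fun S : Finset V => if S.card = 1 then cutw x0 S else R S) T = R T := if_neg hTc
    rw [eS, eT]
    rcases main with h | h
    · exact Or.inl (h.trans (add_le_add gA gD))
    · exact Or.inr (h.trans (add_le_add gB gC))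

end H63F
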