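import Pool.Agent.Lib.H63F.G5a

/-! # H63F, chunk G5d: `ε |S| |V - S| - r S` is strictly uncrossing -/

set_option autoImplicit false
set_option linter.unusedSectionVars false

namespace H63F

open Finset H98P

variable {V : Type*} [Fintype V] [DecidableEq V]

/-- G5d. `ε |S| |V - S| - r S` is strictly uncrossing. -/
theorem sunc_demand {r : Finset V → ℝ}
    (h : ∀ S T : Finset V, ¬ NonX S T → r S + r T ≤ r (S ∩ T) + r (S ∪ T) ∨ r S + r T ≤ r (S \ T) + r (T \ S))
    {ε : ℝ} (hε : 0 < ε) : SUnc fun S => ε * S.card * (univ \ S).card - r S := by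
  intro S T hn
  have hn' := hn
  unfold NonX at hn'
  push Not at hn'
  obtain ⟨n1, n2, n3, n4⟩ := hn'
  have m1 : (S ∩ T).Nonempty := Finset.nonempty_iff_ne_empty.2 (Finset.nonempty_iff_ne_empty.1 n1)
  have m2 : (S \ T).Nonempty := Finset.sdiff_nonempty.2 n2
  have m3 : (T \ S).Nonempty := Finset.sdiff_nonempty.2 n3
  have m4 : (univ \ (S ∪ T)).Nonempty := by
    rw [Finset.sdiff_nonempty]
    intro h
    exact n4 (Finset.univ_subset_iff.1 h)
  rcases h S T hn with h | h
  · left
    have a4 := H13G.gg_sub S T
    have a5 : (0 : ℝ) < (S \ T).card * (T \ S).card := by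
      have := Finset.card_pos.2 m2
      have := Finset.card_pos.2 m3
      positivity
    have a6 := mul_pos hε a5
    simp only
    nlinarith [a4, a6, h]
  · right
    have a4 := H13G.gg_pos S T
    have a5 : (0 : ℝ) < (S ∩ T).card * (univ \ (S ∪ T)).card := by
      have := Finset.card_pos.2 m1
      have := Finset.card_pos.2 m4
      positivity
    have a6 := mul_pos hε a5
    simp only
    nlinarith [a4, a6, h]

end H63F
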