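import Pool.Agent.Lib.H63F.D

/-! # H63F, chunk G5e: compactness (the limit `ε → 0`)

`limit_core` takes the approximate statement for every `ε > 0` (`approx_c` with the constants of `sunc_demand`) as a
hypothesis. PROOF: `x k` for `ε = 1/(k+1)`, a convergent subsequence in the standard simplex, `G` = the support of the
limit (contained in the plane set of `x k` for large `k`). -/

set_option autoImplicit false

namespace H63F

open Finset H98P

variable {V : Type*} [Fintype V] [DecidableEq V]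

theorem limit_core {cross : Sym2 V → Sym2 V → Prop} {r : Finset V → ℝ} {x0 : Sym2 V → ℝ}
    (hx0 : ∀ S : Finset V, S.Nonempty → S ≠ univ → r S ≤ cutw x0 S)
    (happ : ∀ ε : ℝ, 0 < ε → ∃ G : Finset (Sym2 V), Plane cross G ∧ (∀ v, s(v, v) ∉ G) ∧ ∃ x ∈ Sx G,
      ∀ S' : Finset V, S'.Nonempty → S' ≠ univ → ∃ S : Finset V, S.Nonempty ∧ S ≠ univ ∧
        cutw x0 S + (ε * S.card * (univ \ S).card - r S) ≤
          cutw x S' + (ε * S'.card * (univ \ S').card - r S')) :
    ∃ G : Finset (Sym2 V), Plane cross G ∧ (∀ v, s(v, v) ∉ G) ∧ ∃ x ∈ Sx G,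
      ∀ S : Finset V, S.Nonempty → S ≠ univ → r S ≤ cutw x S := by
  classical
  have hpos : ∀ k : ℕ, 0 < 1 / ((k : ℝ) + 1) := fun k => Nat.one_div_pos_of_nat
  choose G hG hl x hx hcut using fun k : ℕ => happ (1 / ((k : ℝ) + 1)) (hpos k)
  have hbound : ∀ k (S' : Finset V), S'.Nonempty → S' ≠ univ →
      r S' ≤ cutw (x k) S' + 1 / ((k : ℝ) + 1) * (S'.card * (univ \ S').card) := by
    intro k S' h1 h2
    obtain ⟨S, hS1, hS2, h3⟩ := hcut k S' h1 h2
    have h4 := hx0 S hS1 hS2
    have h5 : 0 ≤ 1 / ((k : ℝ) + 1) * S.card * (univ \ S).card := by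
      have := (hpos k).le
      positivity
    nlinarith [h3, h4, h5, mul_assoc (1 / ((k : ℝ) + 1)) (S'.card : ℝ) ((univ \ S').card : ℝ)]
  have hmem : ∀ k, x k ∈ stdSimplex ℝ (Sym2 V) := fun k => ⟨(hx k).1, (hx k).2.2⟩
  obtain ⟨y, hy, φ, hφ, hlim⟩ := (isCompact_stdSimplex ℝ (Sym2 V)).tendsto_subseq hmem
  have hlime : ∀ e, Filter.Tendsto (fun k => x (φ k) e) Filter.atTop (nhds (y e)) := fun e =>
    (tendsto_pi_nhds.mp hlim) e
  -- the support of the limit
  have hsupp : ∃ k, ∀ e, y e ≠ 0 → e ∈ G (φ k) := by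
    have h1 : ∀ᶠ k in Filter.atTop, ∀ e, y e ≠ 0 → e ∈ G (φ k) := by
      rw [Filter.eventually_all]
      intro e
      by_cases he : y e = 0
      · exact Filter.Eventually.of_forall fun k h => absurd he h
      · have h2 : 0 < y e := lt_of_le_of_ne (hy.1 e) (Ne.symm he)
        filter_upwards [(hlime e).eventually (lt_mem_nhds h2)] with k hk _
        by_contra hne
        exact hk.ne' ((hx (φ k)).2.1 e hne)
    exact h1.exists
  obtain ⟨k0, hk0⟩ := hsupp
  refine ⟨univ.filter fun e => y e ≠ 0, ?_, ?_, y, ⟨hy.1, ?_, hy.2⟩, ?_⟩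
  · intro e he f hf
    exact hG (φ k0) e (hk0 e (mem_filter.mp he).2) f (hk0 f (mem_filter.mp hf).2)
  · intro v hv
    exact hl (φ k0) v (hk0 _ (mem_filter.mp hv).2)
  · intro e he
    by_contra h
    exact he (mem_filter.mpr ⟨mem_univ _, h⟩)
  · intro S hS1 hS2
    have hc : Filter.Tendsto (fun k => cutw (x (φ k)) S +
        1 / ((φ k : ℝ) + 1) * (S.card * (univ \ S).card)) Filter.atTop
        (nhds (cutw y S + 0 * (S.card * (univ \ S).card))) := by
      refine Filter.Tendsto.add ?_ (Filter.Tendsto.mul ?_ tendsto_const_nhds)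
      · unfold cutw
        exact tendsto_finsetSum _ fun e _ => (hlime e).mul tendsto_const_nhds
      · exact tendsto_one_div_add_atTop_nhds_zero_nat.comp hφ.tendsto_atTop
    rw [zero_mul, add_zero] at hc
    exact ge_of_tendsto' hc fun k => hbound (φ k) S hS1 hS2

end H63F
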