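import Pool.Agent.Lib.H63F.G5b
import Pool.Agent.Lib.H63F.G5c
import Pool.Agent.Lib.H63F.G5d
import Pool.Agent.Lib.H63F.G5e

/-! # H63F, chunk G5f: Theorem G (plane weights with the same degrees and no smaller connectivities) -/

set_option autoImplicit false

namespace H63F

open Finset H98P H98Z H98M

variable {V : Type*} [Fintype V] [DecidableEq V]

private theorem g5f_px (a b v : V) (hab : a ≠ b) :
    px s(a, b) ({v} : Finset V) = (if v = a then (1 : ℝ) else 0) + (if v = b then (1 : ℝ) else 0) := by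
  unfold px
  by_cases h1 : v = a
  · have h2 : ¬ v = b := fun h => hab (h1 ▸ h)
    have h3 : ∃ a' ∈ ({v} : Finset V), ∃ b', b' ∉ ({v} : Finset V) ∧ s(a, b) = s(a', b') :=
      ⟨a, by simp [h1], b, by rw [mem_singleton]; exact fun h => h2 h.symm, rfl⟩
    rw [if_pos h3, if_pos h1, if_neg h2, add_zero]
  · by_cases h2 : v = b
    · have h3 : ∃ a' ∈ ({v} : Finset V), ∃ b', b' ∉ ({v} : Finset V) ∧ s(a, b) = s(a', b') :=
        ⟨b, by simp [h2], a, by rw [mem_singleton]; exact fun h => h1 h.symm, Sym2.eq_swap⟩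
      rw [if_pos h3, if_neg h1, if_pos h2, zero_add]
    · have h3 : ¬ ∃ a' ∈ ({v} : Finset V), ∃ b', b' ∉ ({v} : Finset V) ∧ s(a, b) = s(a', b') := by
        rintro ⟨a', ha', b', -, h⟩
        rw [mem_singleton] at ha'
        subst ha'
        rcases Sym2.eq_iff.1 h with ⟨h4, -⟩ | ⟨-, h4⟩
        · exact h1 h4.symm
        · exact h2 h4.symm
      rw [if_neg h3, if_neg h1, if_neg h2, add_zero]

/-- The degrees of loopless weights sum to twice the total. -/
private theorem g5f_sum {w : Sym2 V → ℝ} (hl : ∀ v, w s(v, v) = 0) :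
    ∑ v, cutw w {v} = 2 * ∑ e, w e := by
  unfold cutw
  rw [sum_comm, mul_sum]
  refine sum_congr rfl fun e _ => ?_
  rw [← mul_sum]
  induction e using Sym2.ind with
  | _ a b =>
    by_cases hab : a = b
    · subst hab
      rw [hl a]
      ring
    · have h1 : ∑ v : V, px s(a, b) ({v} : Finset V) = 2 := by
        rw [sum_congr rfl fun v _ => g5f_px a b v hab, sum_add_distrib,
          Finset.sum_ite_eq' univ a (fun _ => (1 : ℝ)), Finset.sum_ite_eq' univ b (fun _ => (1 : ℝ)),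
          if_pos (mem_univ _), if_pos (mem_univ _)]
        norm_num
      rw [h1]
      ring

private theorem g5f_smul (t : ℝ) (w : Sym2 V → ℝ) (S : Finset V) :
    cutw (fun e => t * w e) S = t * cutw w S := by
  unfold cutw
  rw [mul_sum]
  exact sum_congr rfl fun e _ => by ring

/-- G5f. THEOREM G. PROOF: scale `x0` to total `1` (if it is `0` take `x = 0`); the limit with the demands of
`exists_demand`; `cutw x {v} ≥ cutw x0 {v}` for all `v` and the sums over `v` are equal (`2 * total`, no loops). -/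
theorem theoremG (hV : 2 ≤ Fintype.card V) {cross : Sym2 V → Sym2 V → Prop}
    (hsymm : ∀ e f, cross e f → cross f e) (hHD : ∀ W : Finset V, HD cross W) {x0 : Sym2 V → ℝ}
    (h0 : ∀ e, 0 ≤ x0 e) (hl : ∀ v, x0 s(v, v) = 0) :
    ∃ (G : Finset (Sym2 V)) (x : Sym2 V → ℝ), Plane cross G ∧ (∀ v, s(v, v) ∉ G) ∧ (∀ e, 0 ≤ x e) ∧
      (∀ e, e ∉ G → x e = 0) ∧ (∀ v, cutw x {v} = cutw x0 {v}) ∧
      ∀ (S : Finset V) (u v : V), u ∈ S → v ∉ S → ∃ T : Finset V, u ∈ T ∧ v ∉ T ∧ cutw x0 T ≤ cutw x S := by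
  classical
  by_cases ht : ∑ e, x0 e = 0
  · have hz : ∀ e, x0 e = 0 := fun e =>
      (Finset.sum_eq_zero_iff_of_nonneg fun e _ => h0 e).1 ht e (mem_univ e)
    have hcw : ∀ S : Finset V, cutw (fun _ => (0 : ℝ)) S = cutw x0 S := by
      intro S
      unfold cutw
      exact sum_congr rfl fun e _ => by rw [hz e]
    refine ⟨∅, fun _ => 0, ?_, ?_, ?_, ?_, ?_, ?_⟩
    · intro e he
      exact absurd he (notMem_empty e)
    · intro v
      exact notMem_empty _
    · intro e
      exact le_rfl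
    · intro e _
      rfl
    · intro v
      exact hcw {v}
    · intro S u v hu hv
      exact ⟨S, hu, hv, (hcw S).ge⟩
  · have hpos : 0 < ∑ e, x0 e := lt_of_le_of_ne (sum_nonneg fun e _ => h0 e) (Ne.symm ht)
    obtain ⟨t, htd⟩ : ∃ t, t = ∑ e, x0 e := ⟨_, rfl⟩
    rw [← htd] at hpos
    have hy0 : ∀ e, 0 ≤ t⁻¹ * x0 e := fun e => mul_nonneg (inv_nonneg.2 hpos.le) (h0 e)
    have hy1 : ∑ e, t⁻¹ * x0 e = 1 := by
      rw [← mul_sum, ← htd]
      exact inv_mul_cancel₀ hpos.ne'
    obtain ⟨r, hr1, hr2, hr3, hr4⟩ := exists_demand hy0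
    obtain ⟨G, hG, hGl, x, hx, hxr⟩ := limit_core (cross := cross) hr1 fun ε hε =>
      approx_of hV hsymm hHD (c := fun S => ε * S.card * (univ \ S).card - r S)
        (fun x hx => hyp_a_c hV (sunc_demand hr4 hε) hx) hy0 hy1
    have hxl : ∀ v, x s(v, v) = 0 := fun v => hx.2.1 _ (hGl v)
    have hdeg : ∀ v, cutw (fun e => t⁻¹ * x0 e) {v} ≤ cutw x {v} := by
      intro v
      obtain ⟨u, hu⟩ : ∃ u, u ≠ v := Fintype.exists_ne_of_one_lt_card (by omega) v
      rw [← hr3 v ⟨u, hu⟩]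
      refine hxr {v} (singleton_nonempty v) fun h => ?_
      have h2 : u ∈ ({v} : Finset V) := h ▸ mem_univ u
      exact hu (mem_singleton.1 h2)
    have hsum : ∑ v, cutw (fun e => t⁻¹ * x0 e) {v} = ∑ v, cutw x {v} := by
      rw [g5f_sum (w := fun e => t⁻¹ * x0 e) (fun v => by rw [hl v, mul_zero]),
        g5f_sum hxl, hy1, hx.2.2]
    have heq : ∀ v, cutw (fun e => t⁻¹ * x0 e) {v} = cutw x {v} := fun v =>
      (Finset.sum_eq_sum_iff_of_le fun v _ => hdeg v).1 hsum v (mem_univ v)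
    have htt : t * t⁻¹ = 1 := mul_inv_cancel₀ hpos.ne'
    refine ⟨G, fun e => t * x e, hG, hGl, fun e => mul_nonneg hpos.le (hx.1 e), ?_, ?_, ?_⟩
    · intro e he
      simp only
      rw [hx.2.1 e he, mul_zero]
    · intro v
      rw [g5f_smul, ← heq v, g5f_smul, ← mul_assoc, htt, one_mul]
    · intro S u v hu hv
      obtain ⟨T, hT1, hT2, hT3⟩ := hr2 S u v hu hv
      refine ⟨T, hT1, hT2, ?_⟩
      have h1 : r S ≤ cutw x S := hxr S ⟨u, hu⟩ fun h => hv (h ▸ mem_univ v)
      have h2 := hT3.trans h1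
      rw [g5f_smul] at h2
      rw [g5f_smul]
      have h3 := mul_le_mul_of_nonneg_left h2 hpos.le
      rwa [← mul_assoc, htt, one_mul] at h3

end H63F
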