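import Pool.Agent.Lib.H63F.D

/-! # H63F, chunk G5g: the case `x0 = 2/(n-1)` of Theorem G (with the conclusion of `theoremG` as hypothesis `hG`) -/

set_option autoImplicit false

namespace H63F

open Finset H98P

variable {V : Type*} [Fintype V] [DecidableEq V]

/-- The constant weight `2/(n-1)` on all pairs. -/
private noncomputable def h27x (V : Type*) [Fintype V] [DecidableEq V] (e : Sym2 V) : ℝ :=
  if e.IsDiag then 0 else 2 / ((Fintype.card V : ℝ) - 1)

private theorem h27_cutw (S : Finset V) :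
    cutw (h27x V) S = (S.card : ℝ) * (univ \ S).card * (2 / ((Fintype.card V : ℝ) - 1)) := by
  classical
  set I : Finset (Sym2 V) := (S ×ˢ (univ \ S)).image (fun p => s(p.1, p.2)) with hI
  have h1 : ∀ e : Sym2 V, h27x V e * px e S = if e ∈ I then 2 / ((Fintype.card V : ℝ) - 1) else 0 := by
    intro e
    by_cases he : e ∈ I
    · rw [if_pos he]
      rw [hI, mem_image] at he
      obtain ⟨⟨a, b⟩, hab, rfl⟩ := he
      rw [mem_product, mem_sdiff] at hab
      obtain ⟨ha, -, hb⟩ := hab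
      have hne : ¬ (s(a, b) : Sym2 V).IsDiag := by
        rw [Sym2.mk_isDiag_iff]
        rintro rfl
        exact hb ha
      unfold h27x px
      rw [if_neg hne, if_pos ⟨a, ha, b, hb, rfl⟩, mul_one]
    · rw [if_neg he]
      unfold px
      rw [if_neg, mul_zero]
      rintro ⟨a, ha, b, hb, rfl⟩
      apply he
      rw [hI, mem_image]
      exact ⟨(a, b), mem_product.2 ⟨ha, mem_sdiff.2 ⟨mem_univ _, hb⟩⟩, rfl⟩
  have h2 : I.card = S.card * (univ \ S).card := by
    rw [hI, card_image_of_injOn, card_product]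
    rintro ⟨a, b⟩ hab ⟨a', b'⟩ hab' h
    rw [mem_coe, mem_product, mem_sdiff] at hab hab'
    obtain ⟨ha, -, hb⟩ := hab
    obtain ⟨ha', -, hb'⟩ := hab'
    rcases Sym2.eq_iff.1 h with ⟨h1, h2⟩ | ⟨h1, h2⟩
    · exact Prod.ext h1 h2
    · exact absurd (h1 ▸ ha) hb'
  unfold cutw
  rw [sum_congr rfl (fun e _ => h1 e), sum_ite_mem, univ_inter, sum_const, h2, nsmul_eq_mul]
  push_cast
  ring

private theorem h27_card (S : Finset V) : (S.card : ℝ) + (univ \ S).card = Fintype.card V := by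
  have h := card_sdiff_add_card_eq_card (subset_univ S)
  rw [card_univ] at h
  have h2 : (((univ \ S).card + S.card : ℕ) : ℝ) = Fintype.card V := by rw [h]
  push_cast at h2
  linarith

/-- The case `x0 = 2/(n-1)` on all pairs: every cut has `|S| |V-S| 2/(n-1) ≥ 2`, every degree is `2`. -/
theorem fracHam_of_G_aux (hV : 3 ≤ Fintype.card V) {cross : Sym2 V → Sym2 V → Prop}
    (hG : ∀ x0 : Sym2 V → ℝ, (∀ e, 0 ≤ x0 e) → (∀ v, x0 s(v, v) = 0) →
      ∃ (G : Finset (Sym2 V)) (x : Sym2 V → ℝ), Plane cross G ∧ (∀ v, s(v, v) ∉ G) ∧ (∀ e, 0 ≤ x e) ∧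
        (∀ e, e ∉ G → x e = 0) ∧ (∀ v, cutw x {v} = cutw x0 {v}) ∧
        ∀ (S : Finset V) (u v : V), u ∈ S → v ∉ S →
          ∃ T : Finset V, u ∈ T ∧ v ∉ T ∧ cutw x0 T ≤ cutw x S) :
    ∃ (G : Finset (Sym2 V)) (y : Sym2 V → ℝ), Plane cross G ∧ FracHam G y := by
  have hn : (3 : ℝ) ≤ Fintype.card V := by exact_mod_cast hV
  have hn1 : (0 : ℝ) < (Fintype.card V : ℝ) - 1 := by linarith
  obtain ⟨G, y, hP, hl, hy0, hys, hyv, hyc⟩ := hG (h27x V)
    (fun e => by
      unfold h27x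
      split_ifs
      · exact le_rfl
      · positivity)
    (fun v => by
      unfold h27x
      rw [if_pos (Sym2.mk_isDiag_iff.2 rfl)])
  refine ⟨G, y, hP, hy0, hys, hl, fun v => ?_, fun S hS hSu => ?_⟩
  · rw [hyv, h27_cutw]
    have h := h27_card ({v} : Finset V)
    rw [card_singleton] at h ⊢
    have h2 : ((univ \ {v} : Finset V).card : ℝ) = (Fintype.card V : ℝ) - 1 := by
      push_cast at h
      linarith
    rw [h2]
    push_cast
    field_simp
  · obtain ⟨u, hu⟩ := hS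
    obtain ⟨v, hv⟩ : ∃ v, v ∉ S := by
      by_contra hcon
      push Not at hcon
      exact hSu (eq_univ_iff_forall.2 hcon)
    obtain ⟨T, hT, hT', hle⟩ := hyc S u v hu hv
    refine le_trans ?_ hle
    rw [h27_cutw]
    have h := h27_card T
    have h1 : (1 : ℝ) ≤ T.card := by
      exact_mod_cast card_pos.2 ⟨u, hT⟩
    have h2 : (1 : ℝ) ≤ (univ \ T).card := by
      exact_mod_cast card_pos.2 ⟨v, mem_sdiff.2 ⟨mem_univ _, hT'⟩⟩
    have h3 : (Fintype.card V : ℝ) - 1 ≤ (T.card : ℝ) * (univ \ T).card := by nlinarith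
    calc (2 : ℝ) = ((Fintype.card V : ℝ) - 1) * (2 / ((Fintype.card V : ℝ) - 1)) := by
          field_simp
      _ ≤ (T.card : ℝ) * (univ \ T).card * (2 / ((Fintype.card V : ℝ) - 1)) :=
          mul_le_mul_of_nonneg_right h3 (by positivity)

end H63F
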