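import Pool.Agent.Lib.H63F.G5a
import Pool.Agent.Lib.H63F.G5b
import Pool.Agent.Lib.H63F.G5c
import Pool.Agent.Lib.H63F.G5d
import Pool.Agent.Lib.H63F.G5e
import Pool.Agent.Lib.H63F.G5f
import Pool.Agent.Lib.H63F.G5g

/-! # H63F, G5: Theorem G (helper13) and Theorem F, the complete library (`theoremG` is in G5f) -/

set_option autoImplicit false

namespace H63F

open Finset H98P H98Z H98M

variable {V : Type*} [Fintype V] [DecidableEq V]

/-- G5e. Every demand function with uncrossing which is met by some `x0` is met by a plane `x`. -/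
theorem limit_c (hV : 2 ≤ Fintype.card V) {cross : Sym2 V → Sym2 V → Prop}
    (hsymm : ∀ e f, cross e f → cross f e) (hHD : ∀ W : Finset V, HD cross W) {r : Finset V → ℝ}
    (hr : ∀ S T : Finset V, ¬ NonX S T →
      r S + r T ≤ r (S ∩ T) + r (S ∪ T) ∨ r S + r T ≤ r (S \ T) + r (T \ S))
    {x0 : Sym2 V → ℝ} (h0 : ∀ e, 0 ≤ x0 e) (h1 : ∑ e, x0 e = 1)
    (hx0 : ∀ S : Finset V, S.Nonempty → S ≠ univ → r S ≤ cutw x0 S) :
    ∃ G : Finset (Sym2 V), Plane cross G ∧ (∀ v, s(v, v) ∉ G) ∧ ∃ x ∈ Sx G,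
      ∀ S : Finset V, S.Nonempty → S ≠ univ → r S ≤ cutw x S :=
  limit_core hx0 fun _ hε => approx_c hV hsymm hHD (sunc_demand hr hε) h0 h1

/-- THEOREM F. A plane fractional Hamiltonian cycle (Theorem G for the weights `2/(n-1)` on all edges). -/
theorem fracHam_of_G (hV : 3 ≤ Fintype.card V) {cross : Sym2 V → Sym2 V → Prop}
    (hsymm : ∀ e f, cross e f → cross f e) (hHD : ∀ W : Finset V, HD cross W) :
    ∃ (G : Finset (Sym2 V)) (y : Sym2 V → ℝ), Plane cross G ∧ FracHam G y :=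
  fracHam_of_G_aux hV fun _ h0 hl => theoremG (by omega) hsymm hHD h0 hl

end H63F
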