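import Pool.Agent.Lib.H63F.D
import Mathlib.Combinatorics.SimpleGraph.Tutte

/-! # H63F, chunk T1b: matchings from toughness (Tutte) -/

set_option autoImplicit false

namespace H63F

open Finset

variable {V : Type*} [Fintype V] [DecidableEq V]

/-- The number of components of a graph `H` whose vertices are embedded as the complement of `S`, and which
contains all edges of `G` there, is at most any bound `k` for the number of values of the functions constant along
the edges. -/
private theorem T1b_comp_le {W : Type*} [Finite W] (G : Finset (Sym2 V)) (H : SimpleGraph W) (f : W → V)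
    (hf : Function.Injective f) (S : Finset V) (hS : ∀ w, f w ∉ S) (hS' : ∀ v, v ∉ S → ∃ w, f w = v)
    (hadj : ∀ a b, s(f a, f b) ∈ G → a ≠ b → H.Adj a b) (k : ℕ)
    (ht : ∀ c : V → V, (∀ u, u ∉ S → ∀ v, v ∉ S → s(u, v) ∈ G → c u = c v) → ((univ \ S).image c).card ≤ k) :
    Nat.card H.ConnectedComponent ≤ k := by
  classical
  let c : V → V := fun v => if h : ∃ w, f w = v then f (Quot.out (H.connectedComponentMk h.choose)) else v
  have hc : ∀ w, c (f w) = f (Quot.out (H.connectedComponentMk w)) := by
    intro w
    have h : ∃ w', f w' = f w := ⟨w, rfl⟩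
    have h1 : h.choose = w := hf h.choose_spec
    simp only [c]
    rw [dif_pos h, h1]
  have h1 := ht c (by
    intro u hu v hv huv
    obtain ⟨a, rfl⟩ := hS' u hu
    obtain ⟨b, rfl⟩ := hS' v hv
    rw [hc, hc]
    by_cases hab : a = b
    · rw [hab]
    · have := hadj a b huv hab
      rw [SimpleGraph.ConnectedComponent.sound this.reachable])
  refine le_trans ?_ h1
  have : Finite H.ConnectedComponent := inferInstance
  cases nonempty_fintype H.ConnectedComponent
  rw [Nat.card_eq_fintype_card, ← Finset.card_univ]
  refine Finset.card_le_card_of_injOn (fun C => f (Quot.out C)) ?_ ?_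
  · intro C _
    rw [Finset.mem_coe, Finset.mem_image]
    refine ⟨f (Quot.out C), ?_, ?_⟩
    · rw [Finset.mem_sdiff]
      exact ⟨Finset.mem_univ _, hS _⟩
    · rw [hc]
      have : H.connectedComponentMk (Quot.out C) = C := Quot.out_eq C
      rw [this]
  · intro C _ C' _ h
    have h2 : Quot.out C = Quot.out C' := hf h
    rw [← Quot.out_eq C, ← Quot.out_eq C', h2]

private theorem T1b_odd_le {W : Type*} [Finite W] (H : SimpleGraph W) (k : ℕ)
    (h : Nat.card H.ConnectedComponent ≤ k) : H.oddComponents.ncard ≤ k := by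
  have : Finite H.ConnectedComponent := inferInstance
  exact le_trans (Set.ncard_le_card _) h

/-- PROOF: Tutte's theorem (Mathlib: `SimpleGraph.tutte`); the components of `G - u` give a `c` as in `Tough`
(`u` empty: `G` is connected (cuts) and the number of vertices is even). -/
theorem perfect_even {G : Finset (Sym2 V)} (hl : ∀ v, s(v, v) ∉ G) (ht : Tough G 0)
    (hcon : ∀ S : Finset V, S.Nonempty → S ≠ univ → ∃ a ∈ S, ∃ b, b ∉ S ∧ s(a, b) ∈ G)
    (heven : Even (Fintype.card V)) :
    ∃ M : (SimpleGraph.fromEdgeSet (G : Set (Sym2 V))).Subgraph, M.IsPerfectMatching := by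
  classical
  rw [SimpleGraph.tutte]
  intro u hu
  unfold SimpleGraph.IsTutteViolator at hu
  set H := ((⊤ : (SimpleGraph.fromEdgeSet (G : Set (Sym2 V))).Subgraph).deleteVerts u).coe with hH
  have hmem : ∀ v : V, v ∈ ((⊤ : (SimpleGraph.fromEdgeSet (G : Set (Sym2 V))).Subgraph).deleteVerts u).verts ↔
      v ∉ u := by
    intro v
    simp
  have hcomp : ∀ k : ℕ, (∀ c : V → V, (∀ a, a ∉ u.toFinset → ∀ b, b ∉ u.toFinset → s(a, b) ∈ G → c a = c b) →
      ((univ \ u.toFinset).image c).card ≤ k) → Nat.card H.ConnectedComponent ≤ k := by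
    intro k hk
    refine T1b_comp_le G H (fun w => (w : V)) Subtype.val_injective u.toFinset ?_ ?_ ?_ k hk
    · intro w
      rw [Set.mem_toFinset]
      exact (hmem _).1 w.2
    · intro v hv
      rw [Set.mem_toFinset] at hv
      exact ⟨⟨v, (hmem v).2 hv⟩, rfl⟩
    · intro a b hab hne
      rw [hH, SimpleGraph.Subgraph.coe_adj, SimpleGraph.Subgraph.deleteVerts_adj]
      refine ⟨Set.mem_univ _, (hmem _).1 a.2, Set.mem_univ _, (hmem _).1 b.2, ?_⟩
      rw [SimpleGraph.Subgraph.top_adj, SimpleGraph.fromEdgeSet_adj]
      exact ⟨Finset.mem_coe.2 hab, fun h => hne (Subtype.ext h)⟩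
  rcases Set.eq_empty_or_nonempty u with rfl | hne
  · -- `u` empty
    have h1 : Nat.card H.ConnectedComponent ≤ 1 := by
      refine hcomp 1 ?_
      intro c hc
      rw [Finset.card_le_one]
      intro x hx y hy
      rw [Finset.mem_image] at hx hy
      obtain ⟨a, _, rfl⟩ := hx
      obtain ⟨b, _, rfl⟩ := hy
      by_contra hne
      obtain ⟨p, hp, q, hq, hpq⟩ := hcon (univ.filter fun v => c v = c a) ⟨a, by simp⟩ (by
        intro h
        have : b ∈ (univ.filter fun v => c v = c a) := by
          rw [h]
          exact Finset.mem_univ _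
        rw [Finset.mem_filter] at this
        exact hne this.2.symm)
      rw [Finset.mem_filter] at hp hq
      have h3 := hc p (by simp) q (by simp) hpq
      exact hq ⟨Finset.mem_univ _, h3.symm.trans hp.2⟩
    have h2 := T1b_odd_le H 1 h1
    have h3 : H.oddComponents.ncard = 1 := by
      have : 0 < H.oddComponents.ncard := by simpa using hu
      omega
    have h4 : Odd (Nat.card ((⊤ : (SimpleGraph.fromEdgeSet (G : Set (Sym2 V))).Subgraph).deleteVerts ∅).verts) := by
      rw [← SimpleGraph.odd_ncard_oddComponents (G := H), h3]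
      exact odd_one
    have h5 : Nat.card ((⊤ : (SimpleGraph.fromEdgeSet (G : Set (Sym2 V))).Subgraph).deleteVerts ∅).verts =
        Fintype.card V := by
      simp
    rw [h5] at h4
    exact (Nat.not_odd_iff_even.2 heven) h4
  · have h1 : Nat.card H.ConnectedComponent ≤ u.ncard := by
      refine hcomp _ ?_
      intro c hc
      have h2 := ht u.toFinset (Set.toFinset_nonempty.2 hne) c hc
      rw [Set.ncard_eq_toFinset_card']
      omega
    have h2 := T1b_odd_le H _ h1
    omega

/-- The factor-critical case: odd number of vertices, any vertex `v` may be left out. PROOF: Tutte's theorem for the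
graph induced on `V - v` (or: `IsMatching` with `verts = {v}ᶜ`), `Tough` for `insert v u`, parity. -/
theorem perfect_odd {G : Finset (Sym2 V)} (hl : ∀ v, s(v, v) ∉ G) (ht : Tough G 0)
    (hodd : Odd (Fintype.card V)) (v : V) :
    ∃ M : (SimpleGraph.fromEdgeSet (G : Set (Sym2 V))).Subgraph, M.IsMatching ∧ M.verts = {v}ᶜ := by
  classical
  set G' := SimpleGraph.fromEdgeSet (G : Set (Sym2 V)) with hG'
  have key : ∃ M : (G'.induce ({v}ᶜ : Set V)).Subgraph, M.IsPerfectMatching := by
    rw [SimpleGraph.tutte]
    intro u hu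
    unfold SimpleGraph.IsTutteViolator at hu
    set H := ((⊤ : (G'.induce ({v}ᶜ : Set V)).Subgraph).deleteVerts u).coe with hH
    have hmem : ∀ w : ({v}ᶜ : Set V), w ∈ ((⊤ : (G'.induce ({v}ᶜ : Set V)).Subgraph).deleteVerts u).verts ↔
        w ∉ u := by
      intro w
      simp
    let S : Finset V := insert v (u.toFinset.image (fun w : ({v}ᶜ : Set V) => (w : V)))
    have hScard : S.card = u.ncard + 1 := by
      have h1 : v ∉ u.toFinset.image (fun w : ({v}ᶜ : Set V) => (w : V)) := by
        intro h
        rw [Finset.mem_image] at h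
        obtain ⟨w, _, hw⟩ := h
        exact w.2 hw
      simp only [S]
      rw [Finset.card_insert_of_notMem h1, Finset.card_image_of_injective _ Subtype.val_injective,
        Set.ncard_eq_toFinset_card']
    have h1 : Nat.card H.ConnectedComponent ≤ u.ncard + 1 := by
      refine T1b_comp_le G H (fun w => ((w : ({v}ᶜ : Set V)) : V))
        (fun a b h => Subtype.ext (Subtype.ext h)) S ?_ ?_ ?_ _ ?_
      · intro w hw
        simp only [S] at hw
        rw [Finset.mem_insert, Finset.mem_image] at hw
        rcases hw with hw | ⟨x, hx, hxw⟩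
        · exact w.1.2 hw
        · rw [Set.mem_toFinset] at hx
          have : x = w.1 := Subtype.ext hxw
          exact (hmem _).1 w.2 (this ▸ hx)
      · intro w hw
        simp only [S] at hw
        rw [Finset.mem_insert, Finset.mem_image] at hw
        push_neg at hw
        have hwv : w ∈ ({v}ᶜ : Set V) := hw.1
        refine ⟨⟨⟨w, hwv⟩, (hmem _).2 ?_⟩, rfl⟩
        intro h
        exact hw.2 ⟨w, hwv⟩ (Set.mem_toFinset.2 h) rfl
      · intro a b hab hne
        rw [hH, SimpleGraph.Subgraph.coe_adj, SimpleGraph.Subgraph.deleteVerts_adj]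
        refine ⟨Set.mem_univ _, (hmem _).1 a.2, Set.mem_univ _, (hmem _).1 b.2, ?_⟩
        rw [SimpleGraph.Subgraph.top_adj, SimpleGraph.comap_adj, hG', SimpleGraph.fromEdgeSet_adj]
        exact ⟨Finset.mem_coe.2 hab, fun h => hne (Subtype.ext (Subtype.ext h))⟩
      · intro c hc
        have h2 := ht S ⟨v, Finset.mem_insert_self _ _⟩ c hc
        rw [hScard] at h2
        omega
    have h2 := T1b_odd_le H _ h1
    have h3 : H.oddComponents.ncard = u.ncard + 1 := by omega
    have h4 := SimpleGraph.odd_ncard_oddComponents (G := H)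
    have h5 : Nat.card ((⊤ : (G'.induce ({v}ᶜ : Set V)).Subgraph).deleteVerts u).verts + u.ncard + 1 =
        Fintype.card V := by
      have h6 : ((⊤ : (G'.induce ({v}ᶜ : Set V)).Subgraph).deleteVerts u).verts = uᶜ := by
        ext w
        rw [hmem, Set.mem_compl_iff]
      rw [h6, Nat.card_coe_set_eq]
      have h7 := Set.ncard_add_ncard_compl u
      have h8 : Nat.card ({v}ᶜ : Set V) + 1 = Fintype.card V := by
        rw [Nat.card_coe_set_eq]
        have h9 := Set.ncard_add_ncard_compl ({v} : Set V)
        rw [Set.ncard_singleton, Nat.card_eq_fintype_card] at h9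
        omega
      omega
    rw [h3] at h4
    rcases Nat.even_or_odd (u.ncard) with he | ho
    · have h6 := h4.1 he.add_one
      rw [← h5] at hodd
      rw [Nat.odd_iff] at h6 hodd
      rw [Nat.even_iff] at he
      omega
    · have h6 : ¬ Odd (Nat.card ((⊤ : (G'.induce ({v}ᶜ : Set V)).Subgraph).deleteVerts u).verts) := by
        intro h
        have := h4.2 h
        rw [Nat.odd_iff] at this ho
        omega
      rw [← h5] at hodd
      rw [Nat.odd_iff] at h6 hodd ho
      omega
  obtain ⟨M, hM⟩ := key
  refine ⟨M.map (SimpleGraph.Embedding.induce ({v}ᶜ : Set V)).toHom, ?_, ?_⟩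
  · exact hM.1.map _ Subtype.val_injective
  · rw [SimpleGraph.Subgraph.map_verts, (SimpleGraph.Subgraph.isSpanning_iff).1 hM.2, Set.image_univ]
    ext w
    simp

end H63F
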