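import Pool.Agent.Lib.H98P.B0

/-!
# H63F, file D: definitions for the fractional Rafla theorem (see PROOF.md)
-/

set_option autoImplicit false

namespace H63F

open Finset H98P

/-- The complex `K` (a family of finite sets) is acyclic mod 2; the empty set has dimension `-1`. -/
def AC {E : Type*} [Fintype E] [DecidableEq E] (K : Finset E → Prop) : Prop :=
  ∀ z : Finset E → ZMod 2, (∀ s, z s ≠ 0 → K s) → (∀ r, bd z r = 0) →
    ∃ c : Finset E → ZMod 2, (∀ s, c s ≠ 0 → K s) ∧ ∀ r, bd c r = z r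

/-- `K` is closed under subsets. -/
def Dn {E : Type*} (K : Finset E → Prop) : Prop :=
  ∀ s t : Finset E, s ⊆ t → K t → K s

/-- The points of the simplex with vertex set `A`. -/
def Sx {E : Type*} [Fintype E] (A : Finset E) : Set (E → ℝ) :=
  {x | (∀ e, 0 ≤ x e) ∧ (∀ e, e ∉ A → x e = 0) ∧ ∑ e, x e = 1}

/-- The payoff of the mixed strategy `x` against `S`. -/
def pay {E C : Type*} [Fintype E] (p : E → C → ℝ) (q : C → ℝ) (x : E → ℝ) (S : C) : ℝ :=
  ∑ e, x e * p e S + q S

/-- All elements of `T` minimize the payoff against `x`. -/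
def Amin {E C : Type*} [Fintype E] (p : E → C → ℝ) (q : C → ℝ) (x : E → ℝ) (T : Finset C) : Prop :=
  ∀ S ∈ T, ∀ S', pay p q x S ≤ pay p q x S'

/-- The payoff of `e` against the mixed strategy `μ` (without `q`). -/
def mm {E C : Type*} [Fintype C] (p : E → C → ℝ) (μ : C → ℝ) (e : E) : ℝ :=
  ∑ S, μ S * p e S

/-- All elements of `G` maximize the payoff against `μ`. -/
def Amax {E C : Type*} [Fintype C] (p : E → C → ℝ) (μ : C → ℝ) (G : Finset E) : Prop :=
  ∀ e ∈ G, ∀ f, mm p μ f ≤ mm p μ e

/-- The cuts: the proper nonempty subsets of `V`. -/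
abbrev Cut (V : Type*) [Fintype V] [DecidableEq V] : Type _ :=
  {S : Finset V // S.Nonempty ∧ S ≠ univ}

open Classical in
/-- `1` if the edge `e` has exactly one end in `S`, else `0`. -/
noncomputable def px {V : Type*} (e : Sym2 V) (S : Finset V) : ℝ :=
  if ∃ a ∈ S, ∃ b, b ∉ S ∧ e = s(a, b) then 1 else 0

/-- The payoff matrix of the edges against the cuts. -/
noncomputable def pc {V : Type*} [Fintype V] [DecidableEq V] (e : Sym2 V) (S : Cut V) : ℝ :=
  px e S.1

/-- The perturbation `ε |S| |V - S|`. -/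
noncomputable def qc {V : Type*} [Fintype V] [DecidableEq V] (ε : ℝ) (S : Cut V) : ℝ :=
  ε * S.1.card * (univ \ S.1).card

/-- The cuts `S`, `T` do not cross. -/
def NonX {V : Type*} [Fintype V] [DecidableEq V] (S T : Finset V) : Prop :=
  S ∩ T = ∅ ∨ S ⊆ T ∨ T ⊆ S ∨ S ∪ T = univ

/-- A laminar family of cuts: no two of its members cross. -/
def Lam {V : Type*} [Fintype V] [DecidableEq V] (T : Finset (Cut V)) : Prop :=
  ∀ S ∈ T, ∀ S' ∈ T, NonX S.1 S'.1

/-- The total weight of the edges across `S`. -/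
noncomputable def cutw {V : Type*} [Fintype V] [DecidableEq V] (y : Sym2 V → ℝ) (S : Finset V) : ℝ :=
  ∑ e, y e * px e S

/-- A fractional Hamiltonian cycle (point of the subtour elimination polytope) on the edge set `G`. -/
structure FracHam {V : Type*} [Fintype V] [DecidableEq V] (G : Finset (Sym2 V)) (y : Sym2 V → ℝ) : Prop where
  nonneg : ∀ e, 0 ≤ y e
  supp : ∀ e, e ∉ G → y e = 0
  loop : ∀ v, s(v, v) ∉ G
  vert : ∀ v, cutw y {v} = 2
  cut : ∀ S : Finset V, S.Nonempty → S ≠ univ → 2 ≤ cutw y S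

/-- `G` is 1-tough: if `c` is constant along the edges of `G - S`, `S` nonempty, then `c` has at most `|S|`
values outside `S` (so `G - S` has at most `|S|` components). -/
def Tough {V : Type*} [Fintype V] [DecidableEq V] (G : Finset (Sym2 V)) (k : ℕ) : Prop :=
  ∀ S : Finset V, S.Nonempty → ∀ c : V → V,
    (∀ u, u ∉ S → ∀ v, v ∉ S → s(u, v) ∈ G → c u = c v) → ((univ \ S).image c).card ≤ S.card + k

end H63F
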