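import Pool.Agent.Lib.H63F.D

/-! # H63F, chunk T1a: toughness from the weights -/

set_option autoImplicit false

namespace H63F

open Finset

variable {V : Type*} [Fintype V] [DecidableEq V]

set_option linter.unusedSectionVars false

private theorem px_nonneg' (e : Sym2 V) (S : Finset V) : 0 ≤ px e S := by
  unfold px
  split_ifs <;> norm_num

private theorem px_zero {a b : V} {S : Finset V} (h : a ∈ S ↔ b ∈ S) : px s(a, b) S = 0 := by
  unfold px
  rw [if_neg]
  rintro ⟨u, hu, v, hv, he⟩
  rcases Sym2.eq_iff.1 he with ⟨h1, h2⟩ | ⟨h1, h2⟩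
  · subst h1; subst h2; exact hv (h.1 hu)
  · subst h1; subst h2; exact hv (h.2 hu)

private theorem px_one {a b : V} {S : Finset V} (ha : a ∈ S) (hb : b ∉ S) : px s(a, b) S = 1 := by
  unfold px
  rw [if_pos ⟨a, ha, b, hb, rfl⟩]

/-- the classes outside `S` -/
private noncomputable def cls (S : Finset V) (c : V → V) (i : V) : Finset V :=
  univ.filter (fun v => v ∉ S ∧ c v = i)

private theorem mem_cls {S : Finset V} {c : V → V} {i v : V} : v ∈ cls S c i ↔ v ∉ S ∧ c v = i := by
  simp [cls]

private theorem px_sum_in {S : Finset V} {c : V → V} {a b : V} (ha : a ∈ S) (hb : b ∉ S) (I : Finset V) :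
    ∑ i ∈ I, px s(a, b) (cls S c i) ≤ 1 := by
  have h0 : ∀ i ∈ I, i ≠ c b → px s(a, b) (cls S c i) = 0 := by
    intro i _ hi
    apply px_zero
    simp only [mem_cls]
    constructor
    · intro h; exact absurd ha h.1
    · intro h; exact absurd h.2.symm hi
  have h1 : ∀ i, px s(a, b) (cls S c i) ≤ 1 := by
    intro i
    unfold px
    split_ifs <;> norm_num
  by_cases hI : c b ∈ I
  · rw [Finset.sum_eq_single_of_mem (c b) hI h0]
    exact h1 _
  · rw [Finset.sum_eq_zero]
    · norm_num
    · intro i hi
      exact h0 i hi (fun h => hI (h ▸ hi))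

private theorem key {G : Finset (Sym2 V)} {y : Sym2 V → ℝ} (h : FracHam G y) {S : Finset V} {c : V → V}
    (hc : ∀ u, u ∉ S → ∀ v, v ∉ S → s(u, v) ∈ G → c u = c v) (I : Finset V) (e : Sym2 V) :
    ∑ i ∈ I, y e * px e (cls S c i) ≤ ∑ v ∈ S, y e * px e {v} := by
  by_cases he : e ∈ G
  · rw [← Finset.mul_sum, ← Finset.mul_sum]
    apply mul_le_mul_of_nonneg_left _ (h.nonneg e)
    induction e using Sym2.ind with
    | _ a b =>
      have hab : a ≠ b := by
        rintro rfl
        exact h.loop a he
      have hnn : 0 ≤ ∑ v ∈ S, px s(a, b) {v} := Finset.sum_nonneg (fun v _ => px_nonneg' _ _)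
      by_cases ha : a ∈ S
      · by_cases hb : b ∈ S
        · rw [Finset.sum_eq_zero]
          · exact hnn
          · intro i _
            apply px_zero
            simp only [mem_cls]
            constructor
            · intro h; exact absurd ha h.1
            · intro h; exact absurd hb h.1
        · refine (px_sum_in ha hb I).trans ?_
          have h1 : px s(a, b) ({a} : Finset V) = 1 :=
            px_one (Finset.mem_singleton_self a) (by simpa using hab.symm)
          rw [← h1]
          exact Finset.single_le_sum (f := fun v => px s(a, b) ({v} : Finset V))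
            (fun v _ => px_nonneg' _ _) ha
      · by_cases hb : b ∈ S
        · rw [Sym2.eq_swap]
          refine (px_sum_in hb ha I).trans ?_
          have h1 : px s(b, a) ({b} : Finset V) = 1 :=
            px_one (Finset.mem_singleton_self b) (by simpa using hab)
          rw [← h1]
          exact Finset.single_le_sum (f := fun v => px s(b, a) ({v} : Finset V))
            (fun v _ => px_nonneg' _ _) hb
        · have hcc : c a = c b := hc a ha b hb he
          rw [Finset.sum_eq_zero]
          · exact hnn
          · intro i _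
            apply px_zero
            simp only [mem_cls]
            constructor
            · intro h; exact ⟨hb, hcc ▸ h.2⟩
            · intro h; exact ⟨ha, hcc ▸ h.2⟩
  · simp [h.supp e he]

/-- For a value `i` of `c` outside `S` let `C i = {v ∉ S | c v = i}`; it is nonempty and not everything, so
`cutw y (C i) ≥ 2`; an edge of `G` across `C i` has its other end in `S`. So `2 * #values ≤ ∑ i, cutw y (C i) ≤
∑ v ∈ S, cutw y {v} = 2 |S|` (edge by edge: an edge with `y > 0` contributes at most once on the left, to the class of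
its end outside `S`). -/
theorem tough {G : Finset (Sym2 V)} {y : Sym2 V → ℝ} (h : FracHam G y) : Tough G 0 := by
  intro S hS c hc
  have h1 : ∑ i ∈ (univ \ S).image c, cutw y (cls S c i) ≤ ∑ v ∈ S, cutw y {v} := by
    unfold cutw
    rw [Finset.sum_comm, Finset.sum_comm (s := S)]
    exact Finset.sum_le_sum (fun e _ => key h hc _ e)
  have h2 : ∑ _i ∈ (univ \ S).image c, (2 : ℝ) ≤ ∑ i ∈ (univ \ S).image c, cutw y (cls S c i) := by
    apply Finset.sum_le_sum
    intro i hi
    obtain ⟨v, hv, rfl⟩ := Finset.mem_image.1 hi
    have hvS : v ∉ S := (Finset.mem_sdiff.1 hv).2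
    apply h.cut
    · exact ⟨v, mem_cls.2 ⟨hvS, rfl⟩⟩
    · intro heq
      obtain ⟨s, hs⟩ := hS
      have : s ∈ cls S c (c v) := heq ▸ Finset.mem_univ s
      exact (mem_cls.1 this).1 hs
  have h3 : ∑ v ∈ S, cutw y {v} = 2 * (S.card : ℝ) := by
    rw [Finset.sum_congr rfl (fun v _ => h.vert v), Finset.sum_const, nsmul_eq_mul, mul_comm]
  rw [Finset.sum_const, nsmul_eq_mul] at h2
  have h4 : ((((univ \ S).image c).card : ℕ) : ℝ) ≤ (S.card : ℝ) := by
    have := h2.trans h1
    rw [h3] at this
    linarith
  have h5 : ((univ \ S).image c).card ≤ S.card := by exact_mod_cast h4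
  simpa using h5

end H63F
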