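import Pool.Agent.Lib.H63F.F1
import Pool.Agent.Lib.H13G.A

/-! # H63F, chunk G1: minimal cuts do not cross (uncrossing) -/

set_option autoImplicit false

namespace H63F

open Finset H98P

variable {V : Type*} [Fintype V] [DecidableEq V]

/-- The cut function of nonnegative weights is submodular (edge by edge). -/
theorem px_submod (e : Sym2 V) (S T : Finset V) : px e (S ∩ T) + px e (S ∪ T) ≤ px e S + px e T :=
  H13G.px_submod' e S T

private theorem g1_req : H13G.Req (fun _ : Finset V => (0 : ℝ)) := fun _ _ _ => Or.inl (by simp)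

private theorem g1_qr (ε : ℝ) : H13G.qr (fun _ : Finset V => (0 : ℝ)) ε = qc ε := by
  funext S
  unfold H13G.qr
  rw [sub_zero]

/-- Two minimizers of `x(δ S) + ε |S| |V - S|` do not cross. -/
theorem min_nonx {ε : ℝ} (hε : 0 < ε) {x : Sym2 V → ℝ} (hx : ∀ e, 0 ≤ x e) {S T : Cut V}
    (hS : ∀ S', pay pc (qc ε) x S ≤ pay pc (qc ε) x S') (hT : ∀ S', pay pc (qc ε) x T ≤ pay pc (qc ε) x S') :
    NonX S.1 T.1 := by
  rw [← g1_qr ε] at hS hT
  exact H13G.min_nonxG g1_req hε hx hS hT

/-- Hypothesis (a) of the minimax theorem. PROOF: the minimizers form a nonempty finite set `A`, every subset of `A`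
is laminar by `min_nonx`: `ac_simplex`. (`Cut V` is nonempty if `V` has two points.) -/
theorem hyp_a (hV : 2 ≤ Fintype.card V) {ε : ℝ} (hε : 0 < ε) {x : Sym2 V → ℝ} (hx : ∀ e, 0 ≤ x e) :
    AC fun T : Finset (Cut V) => Lam T ∧ Amin pc (qc ε) x T := by
  rw [← g1_qr ε]
  exact H13G.hyp_aG hV g1_req hε hx

end H63F
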