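import Pool.Agent.Lib.H63F.D

/-! # H63F, chunk G2b: the average of the cut metrics, loops -/

set_option autoImplicit false

namespace H63F

open Finset H98P

variable {V : Type*} [Fintype V] [DecidableEq V]

private noncomputable def ind (S : Finset V) (u : V) : ℝ := if u ∈ S then 1 else 0

private theorem px_ind (u v : V) (S : Finset V) :
    px s(u, v) S = ind S u * (1 - ind S v) + ind S v * (1 - ind S u) := by
  have key : px s(u, v) S = if (u ∈ S ∧ v ∉ S) ∨ (v ∈ S ∧ u ∉ S) then 1 else 0 := by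
    have hiff : (∃ a ∈ S, ∃ b, b ∉ S ∧ s(u, v) = s(a, b)) ↔
        (u ∈ S ∧ v ∉ S) ∨ (v ∈ S ∧ u ∉ S) := by
      constructor
      · rintro ⟨a, ha, b, hb, h⟩
        rcases Sym2.eq_iff.1 h with ⟨rfl, rfl⟩ | ⟨rfl, rfl⟩
        · exact Or.inl ⟨ha, hb⟩
        · exact Or.inr ⟨ha, hb⟩
      · rintro (⟨h1, h2⟩ | ⟨h1, h2⟩)
        · exact ⟨u, h1, v, h2, rfl⟩
        · exact ⟨v, h1, u, h2, Sym2.eq_swap⟩
    unfold px
    by_cases hP : (u ∈ S ∧ v ∉ S) ∨ (v ∈ S ∧ u ∉ S)
    · rw [if_pos (hiff.2 hP), if_pos hP]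
    · rw [if_neg fun h => hP (hiff.1 h), if_neg hP]
  rw [key]
  unfold ind
  by_cases hu : u ∈ S <;> by_cases hv : v ∈ S <;> simp [hu, hv]

private theorem sum_ind (S : Finset V) : ∑ u, ind S u = (S.card : ℝ) := by
  unfold ind
  rw [Finset.sum_ite_mem, Finset.univ_inter, Finset.sum_const, nsmul_eq_mul, mul_one]

private theorem sum_px (S : Finset V) :
    ∑ u, ∑ v, px s(u, v) S = 2 * ((S.card : ℝ) * ((Fintype.card V : ℝ) - S.card)) := by
  have h2 : ∑ v, (1 - ind S v) = (Fintype.card V : ℝ) - S.card := by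
    rw [Finset.sum_sub_distrib, sum_ind, Finset.sum_const, Finset.card_univ, nsmul_eq_mul, mul_one]
  have h1 : ∀ u, ∑ v, px s(u, v) S =
      ind S u * ((Fintype.card V : ℝ) - S.card) + (S.card : ℝ) * (1 - ind S u) := by
    intro u
    rw [Finset.sum_congr rfl fun v _ => px_ind u v S, Finset.sum_add_distrib, ← Finset.mul_sum,
      ← Finset.sum_mul, h2, sum_ind]
  rw [Finset.sum_congr rfl fun u _ => h1 u, Finset.sum_add_distrib, ← Finset.sum_mul,
    ← Finset.mul_sum, sum_ind, h2]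
  ring

private theorem cut_bound (S : Cut V) : (1 : ℝ) ≤ (S.1.card : ℝ) ∧
    (S.1.card : ℝ) + 1 ≤ (Fintype.card V : ℝ) := by
  obtain ⟨h1, h2⟩ := S.2
  have h3 : 1 ≤ S.1.card := Finset.card_pos.2 h1
  have h4 : S.1.card < Fintype.card V := by
    rw [Finset.card_lt_iff_ne_univ]
    exact h2
  exact ⟨by exact_mod_cast h3, by exact_mod_cast h4⟩

theorem mm_loop (μ : Cut V → ℝ) (v : V) : mm pc μ s(v, v) = 0 := by
  unfold mm pc
  refine Finset.sum_eq_zero fun S _ => ?_
  rw [px_ind]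
  unfold ind
  by_cases hv : v ∈ S.1 <;> simp [hv]

/-- VALUE: the maximum of `mm pc μ` is at least the average `(n-1)/C(n,2) = 2/n`. PROOF: sum over all ordered pairs
`(u, v)`: `∑ u, ∑ v, px s(u, v) S = 2 |S| |V - S| ≥ 2 (n - 1)`; the pairs `u = v` contribute `0`. -/
theorem value {T : Finset (Cut V)} {μ : Cut V → ℝ} (hμ : μ ∈ Sx T) {e : Sym2 V}
    (he : ∀ f, mm pc μ f ≤ mm pc μ e) : 2 / (Fintype.card V : ℝ) ≤ mm pc μ e := by
  obtain ⟨h0, -, h1⟩ := hμ
  set n : ℝ := (Fintype.card V : ℝ) with hn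
  set M : ℝ := mm pc μ e with hM
  -- there is a cut
  have hne : ∃ S : Cut V, μ S ≠ 0 := by
    by_contra hh
    push Not at hh
    rw [Finset.sum_eq_zero fun S _ => hh S] at h1
    exact zero_ne_one h1
  obtain ⟨S0, -⟩ := hne
  have hn2 : 2 ≤ n := by
    have := cut_bound S0
    linarith [this.1, this.2]
  -- lower bound of the sum
  have low : 2 * (n - 1) ≤ ∑ u, ∑ v, mm pc μ s(u, v) := by
    have e1 : ∑ u, ∑ v, mm pc μ s(u, v) =
        ∑ S : Cut V, μ S * ∑ u, ∑ v, px s(u, v) S.1 := by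
      unfold mm pc
      have a1 : ∀ u : V, ∑ v, ∑ S : Cut V, μ S * px s(u, v) S.1 =
          ∑ S : Cut V, μ S * ∑ v, px s(u, v) S.1 := by
        intro u
        rw [Finset.sum_comm]
        exact Finset.sum_congr rfl fun S _ => (Finset.mul_sum _ _ _).symm
      rw [Finset.sum_congr rfl fun u _ => a1 u, Finset.sum_comm]
      exact Finset.sum_congr rfl fun S _ => (Finset.mul_sum _ _ _).symm
    rw [e1]
    have e2 : 2 * (n - 1) = ∑ S : Cut V, μ S * (2 * (n - 1)) := by
      rw [← Finset.sum_mul, h1, one_mul]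
    rw [e2]
    refine Finset.sum_le_sum fun S _ => mul_le_mul_of_nonneg_left ?_ (h0 S)
    rw [sum_px]
    obtain ⟨c1, c2⟩ := cut_bound S
    rw [← hn] at c2 ⊢
    nlinarith [mul_nonneg (sub_nonneg.2 c1) (sub_nonneg.2 c2)]
  -- upper bound of the sum
  have upp : ∑ u, ∑ v, mm pc μ s(u, v) ≤ n * (n - 1) * M := by
    have e1 : ∀ u v : V, mm pc μ s(u, v) ≤ M - if u = v then M else 0 := by
      intro u v
      by_cases h : u = v
      · subst h
        rw [mm_loop]
        simp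
      · rw [if_neg h, sub_zero]
        exact he _
    have e2 : ∑ u : V, ∑ v : V, (M - if u = v then M else 0) = n * (n - 1) * M := by
      have e3 : ∀ u : V, ∑ v : V, (M - if u = v then M else 0) = (n - 1) * M := by
        intro u
        rw [Finset.sum_sub_distrib, Finset.sum_ite_eq, if_pos (Finset.mem_univ u),
          Finset.sum_const, Finset.card_univ, nsmul_eq_mul, ← hn]
        ring
      rw [Finset.sum_congr rfl fun u _ => e3 u, Finset.sum_const, Finset.card_univ, nsmul_eq_mul,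
        ← hn]
      ring
    rw [← e2]
    exact Finset.sum_le_sum fun u _ => Finset.sum_le_sum fun v _ => e1 u v
  have h3 : 2 * (n - 1) ≤ n * (n - 1) * M := low.trans upp
  have h4 : 2 ≤ n * M := by
    have h5 : 0 < n - 1 := by linarith
    have h6 : (n - 1) * 2 ≤ (n - 1) * (n * M) := by linarith [h3, mul_comm (n - 1) (n * M)]
    exact le_of_mul_le_mul_left h6 h5
  rw [div_le_iff₀ (by linarith), mul_comm]
  exact h4

end H63F
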