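import Pool.Agent.Lib.H63F.G2a
import Pool.Agent.Lib.H63F.G2b

/-! # H63F, G2: four point condition, multipartite, value (see G2a, G2b) -/
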