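import Pool.Agent.Lib.H63F.D

/-! # H63F, chunk G2a: the four point condition of a laminar metric, the diametral graph is multipartite -/

set_option autoImplicit false
set_option linter.unusedSectionVars false

namespace H63F

open Finset H98P

variable {V : Type*} [Fintype V] [DecidableEq V]

private theorem G2a_px (a b : V) (S : Finset V) : px s(a, b) S = if (a ∈ S ↔ b ∈ S) then 0 else 1 := by
  unfold px
  by_cases ha : a ∈ S <;> by_cases hb : b ∈ S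
  · rw [if_neg, if_pos (by simp [ha, hb])]
    rintro ⟨x, hx, y, hy, h⟩
    rcases Sym2.eq_iff.1 h with ⟨h1, h2⟩ | ⟨h1, h2⟩
    · exact hy (h2 ▸ hb)
    · exact hy (h1 ▸ ha)
  · rw [if_pos ⟨a, ha, b, hb, rfl⟩, if_neg (by simp [ha, hb])]
  · rw [if_pos ⟨b, hb, a, ha, Sym2.eq_swap⟩, if_neg (by simp [ha, hb])]
  · rw [if_neg, if_pos (by simp [ha, hb])]
    rintro ⟨x, hx, y, hy, h⟩
    rcases Sym2.eq_iff.1 h with ⟨h1, h2⟩ | ⟨h1, h2⟩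
    · exact ha (h1 ▸ hx)
    · exact hb (h2 ▸ hx)

private theorem G2a_le (a b c d : V) (S : Finset V)
    (h : ¬((a ∈ S ↔ c ∈ S) ∧ (b ∈ S ↔ d ∈ S) ∧ ¬(a ∈ S ↔ b ∈ S))) :
    px s(a, b) S + px s(c, d) S ≤ px s(a, c) S + px s(b, d) S := by
  rw [G2a_px, G2a_px, G2a_px, G2a_px]
  by_cases ha : a ∈ S <;> by_cases hb : b ∈ S <;> by_cases hc : c ∈ S <;> by_cases hd : d ∈ S <;>
    simp_all

private theorem G2a_cross (a b c d : V) (S S' : Finset V)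
    (h : (a ∈ S ↔ c ∈ S) ∧ (b ∈ S ↔ d ∈ S) ∧ ¬(a ∈ S ↔ b ∈ S))
    (h' : (a ∈ S' ↔ d ∈ S') ∧ (b ∈ S' ↔ c ∈ S') ∧ ¬(a ∈ S' ↔ b ∈ S')) : ¬NonX S S' := by
  have key : (∃ x, x ∈ S ∧ x ∈ S') ∧ (∃ x, x ∈ S ∧ x ∉ S') ∧ (∃ x, x ∉ S ∧ x ∈ S') ∧ (∃ x, x ∉ S ∧ x ∉ S') := by
    by_cases ha : a ∈ S <;> by_cases ha' : a ∈ S'
    · have hb : b ∉ S := fun hb => h.2.2 (by simp [ha, hb])
      have hb' : b ∉ S' := fun hb => h'.2.2 (by simp [ha', hb])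
      exact ⟨⟨a, ha, ha'⟩, ⟨c, h.1.1 ha, fun hc => hb' (h'.2.1.2 hc)⟩, ⟨d, fun hd => hb (h.2.1.2 hd), h'.1.1 ha'⟩,
        ⟨b, hb, hb'⟩⟩
    · have hb : b ∉ S := fun hb => h.2.2 (by simp [ha, hb])
      have hb' : b ∈ S' := by
        by_contra hb
        exact h'.2.2 (by simp [ha', hb])
      exact ⟨⟨c, h.1.1 ha, h'.2.1.1 hb'⟩, ⟨a, ha, ha'⟩, ⟨b, hb, hb'⟩, ⟨d, fun hd => hb (h.2.1.2 hd),
        fun hd => ha' (h'.1.2 hd)⟩⟩
    · have hb : b ∈ S := by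
        by_contra hb
        exact h.2.2 (by simp [ha, hb])
      have hb' : b ∉ S' := fun hb => h'.2.2 (by simp [ha', hb])
      exact ⟨⟨d, h.2.1.1 hb, h'.1.1 ha'⟩, ⟨b, hb, hb'⟩, ⟨a, ha, ha'⟩, ⟨c, fun hc => ha (h.1.2 hc),
        fun hc => hb' (h'.2.1.2 hc)⟩⟩
    · have hb : b ∈ S := by
        by_contra hb
        exact h.2.2 (by simp [ha, hb])
      have hb' : b ∈ S' := by
        by_contra hb
        exact h'.2.2 (by simp [ha', hb])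
      exact ⟨⟨b, hb, hb'⟩, ⟨d, h.2.1.1 hb, fun hd => ha' (h'.1.2 hd)⟩, ⟨c, fun hc => ha (h.1.2 hc), h'.2.1.1 hb'⟩,
        ⟨a, ha, ha'⟩⟩
  obtain ⟨⟨x, hx, hx'⟩, ⟨y, hy, hy'⟩, ⟨z, hz, hz'⟩, ⟨w, hw, hw'⟩⟩ := key
  rintro (h1 | h1 | h1 | h1)
  · have : x ∈ S ∩ S' := mem_inter.2 ⟨hx, hx'⟩
    rw [h1] at this
    exact notMem_empty x this
  · exact hy' (h1 hy)
  · exact hz (h1 hz')
  · have : w ∈ S ∪ S' := by
      rw [h1]
      exact mem_univ w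
    rcases mem_union.1 this with h2 | h2
    · exact hw h2
    · exact hw' h2

private theorem G2a_sum {T : Finset (Cut V)} {μ : Cut V → ℝ} (hμ : μ ∈ Sx T) (a b c d a' b' c' d' : V)
    (h : ∀ S ∈ T, px s(a, b) S.1 + px s(c, d) S.1 ≤ px s(a', b') S.1 + px s(c', d') S.1) :
    mm pc μ s(a, b) + mm pc μ s(c, d) ≤ mm pc μ s(a', b') + mm pc μ s(c', d') := by
  unfold mm
  rw [← sum_add_distrib, ← sum_add_distrib]
  apply sum_le_sum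
  intro S _
  rw [← mul_add, ← mul_add]
  by_cases hS : S ∈ T
  · exact mul_le_mul_of_nonneg_left (h S hS) (hμ.1 S)
  · rw [hμ.2.1 S hS, zero_mul, zero_mul]

/-- FOUR POINT CONDITION. -/
theorem four_point {T : Finset (Cut V)} (hT : Lam T) {μ : Cut V → ℝ} (hμ : μ ∈ Sx T) (a b c d : V) :
    mm pc μ s(a, b) + mm pc μ s(c, d) ≤
      max (mm pc μ s(a, c) + mm pc μ s(b, d)) (mm pc μ s(a, d) + mm pc μ s(b, c)) := by
  by_cases h2 : ∃ S ∈ T, (a ∈ S.1 ↔ c ∈ S.1) ∧ (b ∈ S.1 ↔ d ∈ S.1) ∧ ¬(a ∈ S.1 ↔ b ∈ S.1)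
  · obtain ⟨S, hS, h2⟩ := h2
    refine le_trans (G2a_sum hμ a b c d a d b c fun S' hS' => ?_) (le_max_right _ _)
    have h3 : ¬((a ∈ S'.1 ↔ d ∈ S'.1) ∧ (b ∈ S'.1 ↔ c ∈ S'.1) ∧ ¬(a ∈ S'.1 ↔ b ∈ S'.1)) := fun h3 =>
      G2a_cross a b c d S.1 S'.1 h2 h3 (hT S hS S' hS')
    have h4 := G2a_le a b d c S'.1 h3
    rwa [Sym2.eq_swap (a := d) (b := c)] at h4
  · push Not at h2
    refine le_trans (G2a_sum hμ a b c d a c b d fun S hS => ?_) (le_max_left _ _)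
    exact G2a_le a b c d S.1 fun h3 => h3.2.2 (h2 S hS h3.1 h3.2.1)

/-- The diametral graph is complete multipartite. -/
theorem multi {T : Finset (Cut V)} (hT : Lam T) {μ : Cut V → ℝ} (hμ : μ ∈ Sx T) {D : Finset (Sym2 V)}
    (hD : ∀ e, e ∈ D ↔ ∀ f, mm pc μ f ≤ mm pc μ e) {u v w z : V} (h1 : s(u, v) ∉ D) (h2 : s(v, w) ∉ D)
    (h3 : s(v, z) ∈ D) : s(u, w) ∉ D := by
  intro h4
  rw [hD] at h1 h2 h3 h4
  have h5 := four_point hT hμ u w v z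
  rcases le_max_iff.1 h5 with h6 | h6
  · apply h1
    intro f
    linarith [h3 s(w, z), h4 s(w, z), h3 f, h4 f]
  · apply h2
    intro f
    rw [Sym2.eq_swap (a := v) (b := w)]
    linarith [h3 s(u, z), h4 s(u, z), h3 f, h4 f]

end H63F
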