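import Pool.Agent.Lib.H63F.T1a
import Pool.Agent.Lib.H63F.T1b

/-! # H63F, T1: toughness and matchings (see T1a, T1b) -/
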