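import Pool.Agent.Lib.H63F.D
import Pool.Agent.Lib.H59T.Win

/-! # H63F, W1: Win's theorem (helper59's `H59T.win`) for a set of edges -/

set_option autoImplicit false

namespace H63F

open Finset

variable {V : Type*} [Fintype V] [DecidableEq V]

/-- A graph whose cuts are all nonempty is connected. -/
theorem connected_of_cuts [Nonempty V] {G : Finset (Sym2 V)}
    (hcon : ∀ S : Finset V, S.Nonempty → S ≠ univ → ∃ a ∈ S, ∃ b, b ∉ S ∧ s(a, b) ∈ G) :
    (SimpleGraph.fromEdgeSet (G : Set (Sym2 V))).Connected := by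
  classical
  have h1 : (SimpleGraph.fromEdgeSet (G : Set (Sym2 V))).Preconnected := by
    intro u v
    by_contra huv
    have hn : (univ.filter fun x => (SimpleGraph.fromEdgeSet (G : Set (Sym2 V))).Reachable u x).Nonempty :=
      ⟨u, mem_filter.2 ⟨mem_univ _, SimpleGraph.Reachable.refl u⟩⟩
    have hu : (univ.filter fun x => (SimpleGraph.fromEdgeSet (G : Set (Sym2 V))).Reachable u x) ≠ univ := by
      intro h
      have h2 : v ∈ (univ.filter fun x => (SimpleGraph.fromEdgeSet (G : Set (Sym2 V))).Reachable u x) := by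
        rw [h]
        exact mem_univ _
      exact huv (mem_filter.1 h2).2
    obtain ⟨a, ha, b, hb, hab⟩ := hcon _ hn hu
    apply hb
    rw [mem_filter]
    refine ⟨mem_univ _, (mem_filter.1 ha).2.trans ?_⟩
    apply SimpleGraph.Adj.reachable
    rw [SimpleGraph.fromEdgeSet_adj]
    refine ⟨by exact_mod_cast hab, ?_⟩
    rintro rfl
    exact hb ha
  haveI : Nonempty V := inferInstance
  exact ⟨h1⟩

/-- WIN'S THEOREM (1989) for `k = 3`. -/
theorem win {G : Finset (Sym2 V)} (hl : ∀ v, s(v, v) ∉ G) [Nonempty V] (ht : Tough G 2)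
    (hcon : ∀ S : Finset V, S.Nonempty → S ≠ univ → ∃ a ∈ S, ∃ b, b ∉ S ∧ s(a, b) ∈ G) :
    ∃ T : SimpleGraph V, T ≤ SimpleGraph.fromEdgeSet (G : Set (Sym2 V)) ∧ T.IsTree ∧
      ∀ v, (T.neighborSet v).ncard ≤ 3 := by
  classical
  refine Pool.Agent.Lib.H59T.win _ (connected_of_cuts hcon) ?_
  intro S c hS hc
  refine ht S hS c ?_
  intro u hu v hv huv
  refine hc u v hu hv ?_
  rw [SimpleGraph.fromEdgeSet_adj]
  refine ⟨by exact_mod_cast huv, ?_⟩
  rintro rfl
  exact hl _ huv

end H63F
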